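import Pool.Agent.U882.FW.CLZ

/-!
# Closing an orbit segment, in the presence of up to `k` intermediate returns
-/

set_option autoImplicit false

open scoped Manifold ContDiff Topology
open Filter Set Metric

universe u

namespace Pool.Agent.U882.EC

open Pool.Agent.H718R2.G Pool.Agent.W564.SC Pool.Agent.W597.SC Pool.Agent.U882.FW

/-- translations of small maps -/
theorem small_shift {n k : ℕ} {κ ρ : ℝ} {f : V n → V n} (h : Small n k κ f) (v : V n)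
    (hv : ‖v‖ + 2 * ρ ≤ 1 / 2) (hf : ∀ x, 2 * ρ ≤ ‖x‖ → f x = 0) :
    Small n k κ fun x => f (x - v) where
  smooth := h.smooth.comp (contDiff_id.sub contDiff_const)
  supp x hx := by
    apply hf
    have h1 : ‖x‖ ≤ ‖x - v‖ + ‖v‖ := by
      have := norm_add_le (x - v) v
      simpa using this
    linarith
  bd j hj x := by
    have e : iteratedFDeriv ℝ j (fun x => f (x - v)) x = iteratedFDeriv ℝ j f (x - v) :=
      iteratedFDeriv_comp_sub j v x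
    rw [e]
    exact h.bd j hj _

theorem clK (n : ℕ) (N : Type u) [TopologicalSpace N] [T2Space N] [CompactSpace N]
    [ChartedSpace (V n) N] [IsManifold (𝓡 n) ∞ N] (r : ℕ∞) (hr : 2 ≤ r) (F : DiffM n N r)
    (χ : OpenPartialHomeomorph N (V n)) (z : N) (hχ : GoodChart n N χ z)
    (U : Set (DiffM n N r)) (hU : IsOpen[strongTop n N r] U) (hFU : F ∈ U) :
    ∃ k : ℕ, 2 ≤ k ∧ (k : ℕ∞) ≤ r ∧ ∃ κ : ℝ, 0 < κ ∧
      ∀ (y : N) (ρ : ℝ) (m : ℕ) (T : Finset ℕ), y ∈ χ.source → ‖χ y‖ < κ → 0 < ρ →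
        ρ < κ → 1 ≤ m → T.card ≤ k →
        (∀ i ∈ T, F^[i] y ∈ χ.source ∧ 0 < ‖χ (F^[i] y) - χ y‖ ∧
          ‖χ (F^[i] y) - χ y‖ ≤ 2 * ρ) →
        F^[m] y ∈ χ.source →
        ‖χ (F^[m] y) - χ y‖ * (∏ i ∈ T, ρ / ‖χ (F^[i] y) - χ y‖) < κ * ρ ^ k →
        (∀ i, 0 < i → i < m → i ∉ T → F^[i] y ∈ χ.source →
          2 * ρ ≤ ‖χ (F^[i] y) - χ y‖) →
        ∃ G ∈ U, (∀ i < m, G^[i] y = F^[i] y) ∧ G^[m] y = y := by
  obtain ⟨k₀, hk₀1, hk₀r, κ₀, hκ₀, hN₀⟩ := t_NBHD n N r (le_trans (by norm_num) hr) ℝ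
    (fun _ : ℝ => F) (isFam_const F) χ z hχ U hU hFU
  obtain ⟨k, hk⟩ : ∃ k, k = max k₀ 2 := ⟨_, rfl⟩
  have hk2 : 2 ≤ k := by rw [hk]; exact le_max_right _ _
  have hk1 : 1 ≤ k := by omega
  have hkr : (k : ℕ∞) ≤ r := by
    rw [hk]
    rcases le_total k₀ 2 with h2 | h2
    · rw [max_eq_right h2]
      exact_mod_cast hr
    · rw [max_eq_left h2]
      exact hk₀r
  have hN : ∀ (u : V n → V n) (Θ : DiffM n N r), Small n k κ₀ u →
      IsPush n N r χ u Θ → F.trans Θ ∈ U := fun u Θ h2 h3 =>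
    hN₀ 0 u Θ (by simpa using hκ₀) (small_mono h2 (by rw [hk]; exact le_max_left _ _) le_rfl) h3
  obtain ⟨C, hC, hB⟩ := bumpZ n k hk1
  refine ⟨k, hk2, hkr, min (min (min κ₀ (1 / 8)) (min (κ₀ / C) (1 / (2 * C)))) ((1 / 2) ^ (k + 1)),
    by positivity, ?_⟩
  intro y ρ m T hy hyκ hρ hρκ hm hTk hT hsrc hw hi
  set κ := min (min (min κ₀ (1 / 8)) (min (κ₀ / C) (1 / (2 * C)))) ((1 / 2) ^ (k + 1)) with hκ
  have k1 : κ ≤ κ₀ := (min_le_left _ _).trans ((min_le_left _ _).trans (min_le_left _ _))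
  have k2 : κ ≤ 1 / 8 := (min_le_left _ _).trans ((min_le_left _ _).trans (min_le_right _ _))
  have k3 : κ ≤ κ₀ / C := (min_le_left _ _).trans ((min_le_right _ _).trans (min_le_left _ _))
  have k4 : κ ≤ 1 / (2 * C) := (min_le_left _ _).trans ((min_le_right _ _).trans (min_le_right _ _))
  have k5 : κ ≤ (1 / 2) ^ (k + 1) := min_le_right _ _
  have hκ0 : 0 < κ := by rw [hκ]; positivity
  have hρk : 0 < ρ ^ k := pow_pos hρ k
  have hρ1 : ρ ≤ 1 := by linarith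
  have hρk' : ρ ^ k ≤ ρ := by
    calc ρ ^ k ≤ ρ ^ 1 := pow_le_pow_of_le_one hρ.le hρ1 hk1
      _ = ρ := pow_one ρ
  obtain ⟨w, hwdef⟩ : ∃ w, w = χ (F^[m] y) - χ y := ⟨_, rfl⟩
  obtain ⟨c, hcdef⟩ : ∃ c : ℕ → V n, c = fun i => χ (F^[i] y) - χ y := ⟨_, rfl⟩
  have hw' : ‖w‖ * (∏ i ∈ T, ρ / ‖c i‖) < κ * ρ ^ k := by rw [hwdef, hcdef]; exact hw
  have hc : ∀ i ∈ T, 0 < ‖c i‖ ∧ ‖c i‖ ≤ 2 * ρ := by
    intro i hi
    rw [hcdef]
    exact (hT i hi).2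
  have hhalf : ∀ i ∈ T, 1 / 2 ≤ ρ / ‖c i‖ := by
    intro i hi
    obtain ⟨h1, h2⟩ := hc i hi
    rw [div_le_div_iff₀ (by norm_num) h1]
    linarith
  have hprod : (1 / 2 : ℝ) ^ k ≤ ∏ i ∈ T, ρ / ‖c i‖ := half_pow_le_prod hTk hhalf
  have hwk : ‖w‖ * (1 / 2 : ℝ) ^ k ≤ κ * ρ ^ k :=
    (mul_le_mul_of_nonneg_left hprod (norm_nonneg _)).trans hw'.le
  have h2k : (0 : ℝ) < (1 / 2) ^ k := by positivity
  have hwρ : ‖w‖ ≤ ρ := by
    have h1 : κ * ρ ^ k ≤ (1 / 2) ^ k * ρ := by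
      apply mul_le_mul _ hρk' hρk.le h2k.le
      refine k5.trans ?_
      rw [pow_succ]
      linarith
    have h2 : ‖w‖ * (1 / 2 : ℝ) ^ k ≤ ρ * (1 / 2) ^ k := by linarith
    exact le_of_mul_le_mul_right h2 h2k
  have hwc : ∀ i ∈ T, 2 * ‖w‖ ≤ ‖c i‖ := by
    intro i hi
    obtain ⟨h1, h2⟩ := hc i hi
    have h3 : ρ / ‖c i‖ * (1 / 2 : ℝ) ^ k ≤ ∏ i ∈ T, ρ / ‖c i‖ := by
      rw [← Finset.mul_prod_erase T _ hi]
      apply mul_le_mul_of_nonneg_left _ (by positivity)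
      exact half_pow_le_prod ((Finset.card_erase_le).trans hTk)
        fun j hj => hhalf j (Finset.mem_of_mem_erase hj)
    have h4 : ‖w‖ * (ρ / ‖c i‖ * (1 / 2 : ℝ) ^ k) ≤ (1 / 2) ^ (k + 1) * ρ := by
      refine (mul_le_mul_of_nonneg_left h3 (norm_nonneg _)).trans (hw'.le.trans ?_)
      exact mul_le_mul k5 hρk' hρk.le (by positivity)
    have h5 : ‖w‖ / ‖c i‖ * ρ * (1 / 2 : ℝ) ^ k ≤ 1 / 2 * ρ * (1 / 2) ^ k := by
      calc _ = ‖w‖ * (ρ / ‖c i‖ * (1 / 2 : ℝ) ^ k) := by ring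
        _ ≤ _ := h4
        _ = _ := by ring
    have h6 : ‖w‖ / ‖c i‖ * ρ ≤ 1 / 2 * ρ := le_of_mul_le_mul_right h5 h2k
    have h7 : ‖w‖ / ‖c i‖ ≤ 1 / 2 := le_of_mul_le_mul_right h6 hρ
    rw [div_le_iff₀ h1] at h7
    linarith
  obtain ⟨u₀, hu₀, huw₀, huT₀, hu0₀⟩ := hB ρ hρ (by linarith) T c w hTk hwρ
    (fun i hi => ⟨(hc i hi).1, (hc i hi).2, hwc i hi⟩)
  have hq : ‖w‖ * (∏ i ∈ T, ρ / ‖c i‖) / ρ ^ k ≤ κ := by
    rw [div_le_iff₀ hρk]; exact hw'.le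
  have hc1 : C * (‖w‖ * (∏ i ∈ T, ρ / ‖c i‖) / ρ ^ k) ≤ κ₀ := by
    calc C * (‖w‖ * (∏ i ∈ T, ρ / ‖c i‖) / ρ ^ k) ≤ C * (κ₀ / C) :=
          mul_le_mul_of_nonneg_left (hq.trans k3) hC.le
      _ = κ₀ := by field_simp
  have hc2 : C * (‖w‖ * (∏ i ∈ T, ρ / ‖c i‖) / ρ ^ k) ≤ 1 / 2 := by
    calc C * (‖w‖ * (∏ i ∈ T, ρ / ‖c i‖) / ρ ^ k) ≤ C * (1 / (2 * C)) :=
          mul_le_mul_of_nonneg_left (hq.trans k4) hC.le
      _ = 1 / 2 := by field_simp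
  -- the translated perturbation
  obtain ⟨u, hudef⟩ : ∃ u : V n → V n, u = fun x => u₀ (x - χ y) := ⟨_, rfl⟩
  have hshift : ‖χ y‖ + 2 * ρ ≤ 1 / 2 := by linarith
  have hu : Small n k (C * (‖w‖ * (∏ i ∈ T, ρ / ‖c i‖) / ρ ^ k)) u := by
    rw [hudef]
    exact small_shift hu₀ (χ y) hshift hu0₀
  obtain ⟨Θ, hΘ⟩ := Pool.Agent.W428.SC.push n N r χ z hχ u (small_mono hu hk1 hc2)
  have hGU := hN u Θ (small_mono hu le_rfl hc1) hΘ
  refine ⟨F.trans Θ, hGU, ?_⟩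
  have hG : ∀ x, (F.trans Θ) x = Θ (F x) := fun x => rfl
  have key : ∀ i, i < m → (⇑(F.trans Θ))^[i] y = F^[i] y := by
    intro i
    induction i with
    | zero => intro _; rfl
    | succ i ih =>
      intro him
      rw [Function.iterate_succ_apply', ih (by omega), hG, ← Function.iterate_succ_apply' F]
      by_cases hy' : F^[i + 1] y ∈ χ.source
      · obtain ⟨a, b⟩ := hΘ.1 _ hy'
        have hz0 : u (χ (F^[i + 1] y)) = 0 := by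
          rw [hudef]
          by_cases hiT : i + 1 ∈ T
          · have := huT₀ (i + 1) hiT
            rwa [hcdef] at this
          · exact hu0₀ _ (hi (i + 1) (Nat.succ_pos i) him hiT hy')
        rw [hz0, add_zero] at b
        exact χ.injOn a hy' b
      · exact hΘ.2 _ hy'
  refine ⟨key, ?_⟩
  obtain ⟨m', rfl⟩ : ∃ m', m = m' + 1 := ⟨m - 1, by omega⟩
  rw [Function.iterate_succ_apply', key m' (by omega), hG, ← Function.iterate_succ_apply' F]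
  obtain ⟨a, b⟩ := hΘ.1 _ hsrc
  have e : u (χ (F^[m' + 1] y)) = -w := by
    rw [hudef]
    show u₀ (χ (F^[m' + 1] y) - χ y) = -w
    rw [← hwdef, huw₀]
  rw [e, hwdef] at b
  apply χ.injOn a hy
  rw [b]
  abel

end Pool.Agent.U882.EC
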