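import Pool.Agent.U882.FW.Seq

/-!
# Counting visits and returns
-/

set_option autoImplicit false

open Filter Set Metric Topology MeasureTheory

namespace Pool.Agent.U882.EC

open Pool.Agent.U882.FW

section

variable {X : Type*} {F : X → X} {A D : Set X}

theorem cnt_univ (F : X → X) (y : X) (m : ℕ) : cnt F univ y m = m := by
  classical
  unfold cnt
  simp

theorem cnt_le_self (F : X → X) (P : Set X) (y : X) (m : ℕ) : cnt F P y m ≤ m := by
  classical
  unfold cnt
  refine (Finset.card_filter_le _ _).trans ?_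
  simp

theorem cnt_one {P : Set X} {y : X} (h : y ∈ P) : cnt F P y 1 = 1 := by
  classical
  apply le_antisymm (cnt_le_self F P y 1)
  exact cnt_pos F P y 1 0 (by omega) h

/-- If between two visits to `A` there are at least `q` visits to `D`, then `A` is visited at most
`1/q` times as often as `D`; orbits which start in `A`. -/
theorem cnt_returns {q : ℕ} (h : ∀ y ∈ A, ∀ m, 1 ≤ m → F^[m] y ∈ A → q ≤ cnt F D (F y) m) :
    ∀ (M : ℕ) (x : X), x ∈ A → q * cnt F A (F x) M ≤ cnt F D (F x) M := by
  classical
  intro M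
  induction M using Nat.strong_induction_on with
  | _ M ih =>
    intro x hx
    by_cases hex : ∃ i, i < M ∧ F^[i] (F x) ∈ A
    · obtain ⟨hi1, hi2⟩ := Nat.find_spec hex
      have hmin : ∀ j < Nat.find hex, ¬ (j < M ∧ F^[j] (F x) ∈ A) := fun j hj => Nat.find_min hex hj
      obtain ⟨i, hi⟩ : ∃ i, i = Nat.find hex := ⟨_, rfl⟩
      rw [← hi] at hi1 hi2 hmin
      have h0 : cnt F A (F x) i = 0 := by
        unfold cnt
        rw [Finset.card_eq_zero, Finset.filter_eq_empty_iff]
        intro j hj hjA
        rw [Finset.mem_range] at hj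
        exact hmin j hj ⟨by omega, hjA⟩
      have h1 : cnt F A (F x) (i + 1) = 1 := by
        rw [cnt_add, h0, zero_add]
        exact cnt_one hi2
      have hsplitA : cnt F A (F x) M = 1 + cnt F A (F^[i + 1] (F x)) (M - (i + 1)) := by
        conv_lhs => rw [show M = (i + 1) + (M - (i + 1)) by omega]
        rw [cnt_add, h1]
      have hsplitD : cnt F D (F x) M = cnt F D (F x) (i + 1) +
          cnt F D (F^[i + 1] (F x)) (M - (i + 1)) := by
        conv_lhs => rw [show M = (i + 1) + (M - (i + 1)) by omega]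
        rw [cnt_add]
      have hmem : F^[i + 1] x ∈ A := by
        rw [Function.iterate_succ_apply]
        exact hi2
      have hq := h x hx (i + 1) (by omega) hmem
      have hF : F^[i + 1] (F x) = F (F^[i + 1] x) := by
        rw [← Function.iterate_succ_apply, Function.iterate_succ_apply']
      have h3 := ih (M - (i + 1)) (by omega) (F^[i + 1] x) hmem
      rw [hsplitA, hsplitD, hF, mul_add, mul_one]
      omega
    · have h0 : cnt F A (F x) M = 0 := by
        unfold cnt
        rw [Finset.card_eq_zero, Finset.filter_eq_empty_iff]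
        intro j hj hjA
        rw [Finset.mem_range] at hj
        exact hex ⟨j, hj, hjA⟩
      rw [h0, mul_zero]
      exact Nat.zero_le _

/-- the same for all orbits -/
theorem cnt_returns' {q : ℕ} (h : ∀ y ∈ A, ∀ m, 1 ≤ m → F^[m] y ∈ A → q ≤ cnt F D (F y) m)
    (M : ℕ) (x : X) : q * cnt F A (F x) M ≤ cnt F D (F x) M + q := by
  classical
  by_cases hex : ∃ i, i < M ∧ F^[i] (F x) ∈ A
  · obtain ⟨hi1, hi2⟩ := Nat.find_spec hex
    have hmin : ∀ j < Nat.find hex, ¬ (j < M ∧ F^[j] (F x) ∈ A) := fun j hj => Nat.find_min hex hj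
    obtain ⟨i, hi⟩ : ∃ i, i = Nat.find hex := ⟨_, rfl⟩
    rw [← hi] at hi1 hi2 hmin
    have h0 : cnt F A (F x) i = 0 := by
      unfold cnt
      rw [Finset.card_eq_zero, Finset.filter_eq_empty_iff]
      intro j hj hjA
      rw [Finset.mem_range] at hj
      exact hmin j hj ⟨by omega, hjA⟩
    have h1 : cnt F A (F x) (i + 1) = 1 := by
      rw [cnt_add, h0, zero_add]
      exact cnt_one hi2
    have hsplitA : cnt F A (F x) M = 1 + cnt F A (F^[i + 1] (F x)) (M - (i + 1)) := by
      conv_lhs => rw [show M = (i + 1) + (M - (i + 1)) by omega]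
      rw [cnt_add, h1]
    have hsplitD : cnt F D (F x) M = cnt F D (F x) (i + 1) +
        cnt F D (F^[i + 1] (F x)) (M - (i + 1)) := by
      conv_lhs => rw [show M = (i + 1) + (M - (i + 1)) by omega]
      rw [cnt_add]
    have hmem : F^[i + 1] x ∈ A := by
      rw [Function.iterate_succ_apply]
      exact hi2
    have hF : F^[i + 1] (F x) = F (F^[i + 1] x) := by
      rw [← Function.iterate_succ_apply, Function.iterate_succ_apply']
    have h3 := cnt_returns h (M - (i + 1)) (F^[i + 1] x) hmem
    rw [hsplitA, hsplitD, hF, mul_add, mul_one]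
    omega
  · have h0 : cnt F A (F x) M = 0 := by
      unfold cnt
      rw [Finset.card_eq_zero, Finset.filter_eq_empty_iff]
      intro j hj hjA
      rw [Finset.mem_range] at hj
      exact hex ⟨j, hj, hjA⟩
    rw [h0, mul_zero]
    exact Nat.zero_le _

end

section

variable {X : Type*} [MeasurableSpace X] {F : X → X} {A D : Set X}

theorem lintegral_cnt (μ : Measure X) (hF : MeasurePreserving F μ μ) (hA : MeasurableSet A)
    (M : ℕ) : ∫⁻ x, (cnt F A (F x) M : ENNReal) ∂μ = M * μ A := by
  classical
  have h1 : ∀ x, (cnt F A (F x) M : ENNReal) =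
      ∑ i ∈ Finset.range M, (F^[i + 1] ⁻¹' A).indicator (fun _ => (1 : ENNReal)) x := by
    intro x
    rw [cnt_eq_sum]
    push_cast
    apply Finset.sum_congr rfl
    intro i _
    rw [← Function.iterate_succ_apply, Set.indicator_apply]
    simp only [Set.mem_preimage, Nat.succ_eq_add_one]
  simp only [h1]
  rw [lintegral_finsetSum]
  · have h2 : ∀ i ∈ Finset.range M,
        ∫⁻ x, (F^[i + 1] ⁻¹' A).indicator (fun _ => (1 : ENNReal)) x ∂μ = μ A := by
      intro i _
      have hi := hF.iterate (i + 1)
      rw [lintegral_indicator (hi.measurable hA), lintegral_const, one_mul,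
        Measure.restrict_apply_univ, hi.measure_preimage hA.nullMeasurableSet]
    rw [Finset.sum_congr rfl h2, Finset.sum_const, Finset.card_range, nsmul_eq_mul]
  · intro i _
    exact measurable_const.indicator ((hF.iterate (i + 1)).measurable hA)

/-- Kac: some point of `A` returns to `A` before it visits `D` more than `μ(D)/μ(A)` times. -/
theorem exists_return (μ : Measure X) [IsFiniteMeasure μ] (hF : MeasurePreserving F μ μ)
    (hA : MeasurableSet A) (hD : MeasurableSet D) (q : ℕ)
    (h : μ.real D < (q + 1) * μ.real A) :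
    ∃ y ∈ A, ∃ m, 1 ≤ m ∧ F^[m] y ∈ A ∧ cnt F D (F y) m ≤ q := by
  by_contra hcon
  push Not at hcon
  have hpt : ∀ (M : ℕ) (x : X), (q + 1) * cnt F A (F x) M ≤ cnt F D (F x) M + (q + 1) := by
    intro M x
    exact cnt_returns' (fun y hy m hm hmy => hcon y hy m hm hmy) M x
  have hint : ∀ M : ℕ, ((q + 1 : ℕ) : ENNReal) * (M * μ A) ≤ M * μ D + ((q + 1 : ℕ) : ENNReal) * μ univ := by
    intro M
    have h1 : ∫⁻ x, ((q + 1 : ℕ) : ENNReal) * (cnt F A (F x) M : ENNReal) ∂μ ≤
        ∫⁻ x, ((cnt F D (F x) M : ENNReal) + ((q + 1 : ℕ) : ENNReal)) ∂μ := by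
      apply lintegral_mono
      intro x
      have := hpt M x
      show ((q + 1 : ℕ) : ENNReal) * (cnt F A (F x) M : ENNReal) ≤
        (cnt F D (F x) M : ENNReal) + ((q + 1 : ℕ) : ENNReal)
      exact_mod_cast this
    rw [lintegral_const_mul' _ _ (ENNReal.natCast_ne_top _), lintegral_cnt μ hF hA M,
      lintegral_add_right _ measurable_const, lintegral_cnt μ hF hD M, lintegral_const] at h1
    exact h1
  have hreal : ∀ M : ℕ, ((q : ℝ) + 1) * (M * μ.real A) ≤ M * μ.real D + ((q : ℝ) + 1) * μ.real univ := by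
    intro M
    have h1 := hint M
    have h2 := ENNReal.toReal_mono (by
      apply ENNReal.add_ne_top.mpr
      exact ⟨ENNReal.mul_ne_top (ENNReal.natCast_ne_top _) (measure_ne_top _ _),
        ENNReal.mul_ne_top (ENNReal.natCast_ne_top _) (measure_ne_top _ _)⟩) h1
    rw [ENNReal.toReal_add (ENNReal.mul_ne_top (ENNReal.natCast_ne_top _) (measure_ne_top _ _))
      (ENNReal.mul_ne_top (ENNReal.natCast_ne_top _) (measure_ne_top _ _))] at h2
    simp only [ENNReal.toReal_mul, ENNReal.toReal_natCast] at h2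
    push_cast at h2
    exact h2
  have hpos : 0 < ((q : ℝ) + 1) * μ.real A - μ.real D := by linarith
  obtain ⟨M, hM⟩ := exists_nat_gt ((((q : ℝ) + 1) * μ.real univ) / (((q : ℝ) + 1) * μ.real A - μ.real D))
  rw [div_lt_iff₀ hpos] at hM
  have := hreal M
  nlinarith

end

end Pool.Agent.U882.EC
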