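import Pool.Agent.U882.FW.Rec

/-!
# Closing inside an invariant set; invariant measures: definitions
-/

set_option autoImplicit false

open scoped Manifold ContDiff Topology
open Filter Set Metric MeasureTheory

universe u

namespace Pool.Agent.U882.EC

open Pool.Agent.H718R2.G Pool.Agent.U882.FW

/-- `F` can be `C^r`-closed inside `K` at `z`: every neighbourhood of `F` in `Diff^r(N)` contains some
`G` for which some point `y` of `K`, as close to `z` as we like, is periodic, with a period `m` as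
large as we like, where the points `y, G y, …, G^(m-1) y` are `y, F y, …, F^(m-1) y`. -/
def ClosableIn (n : ℕ) (N : Type*) [TopologicalSpace N] [ChartedSpace (V n) N] (r : ℕ∞)
    (F : DiffM n N r) (K : Set N) (z : N) : Prop :=
  ∀ U : Set (DiffM n N r), IsOpen[strongTop n N r] U → F ∈ U → ∀ O ∈ 𝓝 z, ∀ M : ℕ,
    ∃ G ∈ U, ∃ y ∈ K, y ∈ O ∧ ∃ m : ℕ, 1 ≤ m ∧ M ≤ m ∧ (∀ i < m, G^[i] y = F^[i] y) ∧ G^[m] y = y

section

variable {n : ℕ} {N : Type*} [TopologicalSpace N]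

/-- For all admissible exponents `p` there is a `C` such that for all invariant probability measures
`μ` of `F` which are carried by `K`, all `x` in the ball `‖χ‖ < ρ` and all `0 < R ≤ δ ≤ ρ`:
`μ(B(x, R)) ≤ (C (1 + log (1/δ)) / log (1/(2R)))^(1/p) μ(B(x, 2δ))`. -/
def MeasureLaw [MeasurableSpace N] (F : N → N) (K : Set N) (χ : OpenPartialHomeomorph N (V n))
    (k : ℕ) (ρ : ℝ) : Prop :=
  ∀ p : ℝ, Adm k p → ∃ C : ℝ, 0 < C ∧ ∀ μ : Measure N, IsProbabilityMeasure μ →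
    MeasurePreserving F μ μ → μ Kᶜ = 0 → ∀ x ∈ Bal χ ρ, ∀ R δ : ℝ, 0 < R → R ≤ δ → δ ≤ ρ →
    Real.log (1 / (2 * R)) * μ.real (BalAt χ x R) ^ p ≤
      C * (1 + Real.log (1 / δ)) * μ.real (BalAt χ x (2 * δ)) ^ p

/-- Near the centre of `χ` the set `S` has zero Hausdorff measure for the gauge `(log 1/t)^(-1/p)`:
for some `ρ > 0` the part of `S` in the ball `‖χ‖ < ρ` is for all `ε > 0` covered by countably many
balls of radii `0 < R i < 1` with `∑ (log (1 / R i))^(-1/p) ≤ ε`. -/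
def LogNull (p : ℝ) (S : Set N) (χ : OpenPartialHomeomorph N (V n)) : Prop :=
  ∃ ρ : ℝ, 0 < ρ ∧ ∀ ε : ℝ, 0 < ε → ∃ (e : ℕ → V n) (R : ℕ → ℝ), (∀ i, 0 < R i ∧ R i < 1) ∧
    ∑' i, ENNReal.ofReal (Real.log (1 / R i) ^ (-(1 / p))) ≤ ENNReal.ofReal ε ∧
    ∀ u ∈ Bal χ ρ, u ∈ S → ∃ i, ‖χ u - e i‖ < R i

/-- All orbits of points of `K` are dense in `K`. -/
def DenseOrbits (F : N → N) (K : Set N) : Prop :=
  ∀ y ∈ K, K ⊆ closure {u | ∃ i : ℕ, F^[i] y = u}

end

end Pool.Agent.U882.EC
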