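import Pool.Agent.U882.EC.Not
import Pool.Agent.U882.EC.Count

/-!
# The measures of small balls
-/

set_option autoImplicit false

open scoped Manifold ContDiff Topology
open Filter Set Metric MeasureTheory

universe u

namespace Pool.Agent.U882.EC

open Pool.Agent.H718R2.G Pool.Agent.W564.SC Pool.Agent.U882.FW

section

variable {n : ℕ} {N : Type u} [TopologicalSpace N] {F : N → N} {K : Set N}
  {χ : OpenPartialHomeomorph N (V n)} {k : ℕ} {κ : ℝ}

theorem MeasureLaw.mono [MeasurableSpace N] {ρ ρ' : ℝ} (h : MeasureLaw F K χ k ρ) (hρ : ρ' ≤ ρ) :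
    MeasureLaw F K χ k ρ' := by
  intro p hp
  obtain ⟨C, hC, h1⟩ := h p hp
  exact ⟨C, hC, fun μ hμ h2 h3 x hx R δ h4 h5 h6 =>
    h1 μ hμ h2 h3 x (Bal_mono hρ hx) R δ h4 h5 (h6.trans hρ)⟩

theorem measureLaw [MeasurableSpace N] [BorelSpace N] (h : NCK F K χ k κ) (hK : IsClosed K)
    (hFK : MapsTo F K K) (hk : 2 ≤ k) (hκ : 0 < κ) (hκ1 : κ ≤ 1 / 8) :
    MeasureLaw F K χ k (κ / 8) := by
  intro p hp
  obtain ⟨C, hC, hlaw⟩ := law_exp h hFK hk hκ (by linarith) p hp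
  refine ⟨C, hC, ?_⟩
  intro μ hμ hFμ hμK x hx R δ hR hRδ hδ
  have hp0 := hp.1
  have hδ0 : 0 < δ := hR.trans_le hRδ
  have hlδ : 0 ≤ Real.log (1 / δ) := Real.log_nonneg (by rw [le_div_iff₀ hδ0]; linarith)
  obtain ⟨A, hA⟩ : ∃ A : Set N, A = BalAt χ x R ∩ K := ⟨_, rfl⟩
  obtain ⟨D, hD⟩ : ∃ D : Set N, D = BalAt χ x (2 * δ) := ⟨_, rfl⟩
  have hAm : MeasurableSet A := by
    rw [hA]
    exact (isOpen_balAt χ x R).measurableSet.inter hK.measurableSet
  have hDm : MeasurableSet D := by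
    rw [hD]
    exact (isOpen_balAt χ x _).measurableSet
  have hμA : μ.real (BalAt χ x R) = μ.real A := by
    rw [hA, measureReal_def, measureReal_def, measure_inter_conull hμK]
  rw [hμA, ← hD]
  by_cases hA0 : μ.real A = 0
  · rw [hA0, Real.zero_rpow hp0.ne', mul_zero]
    positivity
  have hApos : 0 < μ.real A := lt_of_le_of_ne measureReal_nonneg (Ne.symm hA0)
  have hAD : A ⊆ D := by
    rw [hA, hD]
    rintro u ⟨⟨h1, h2⟩, -⟩
    exact ⟨h1, by linarith⟩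
  have hle : μ.real A ≤ μ.real D := measureReal_mono hAD
  obtain ⟨q, hq⟩ : ∃ q : ℕ, q = ⌊μ.real D / μ.real A⌋₊ := ⟨_, rfl⟩
  have hq1 : 1 ≤ q := by
    rw [hq, Nat.one_le_floor_iff, one_le_div hApos]
    exact hle
  have hqle : (q : ℝ) ≤ μ.real D / μ.real A := by
    rw [hq]
    exact Nat.floor_le (by positivity)
  have hqlt : μ.real D < (q + 1) * μ.real A := by
    rw [← div_lt_iff₀ hApos, hq]
    exact Nat.lt_floor_add_one _
  obtain ⟨y, hyA, m, hm, hmA, hcnt⟩ := exists_return μ hFμ hAm hDm q hqlt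
  rw [hA] at hyA hmA
  obtain ⟨⟨hy1, hy2⟩, hyK⟩ := hyA
  obtain ⟨⟨hm1, hm2⟩, -⟩ := hmA
  obtain ⟨hx1, hx2⟩ := hx
  have hn := norm_sub_norm_le (χ y) (χ x)
  have hn' := norm_sub_norm_le (χ (F^[m] y)) (χ x)
  have h1 := hlaw δ hδ0 (by linarith) q y m hyK hq1 hm hy1 hm1 (by linarith) (by linarith) (by
    refine le_trans (cnt_mono F ?_ _ _) hcnt
    rw [hD]
    rintro u ⟨hu1, hu2⟩
    refine ⟨hu1, ?_⟩
    have := tri (χ u) (χ y) (χ x)
    linarith)
  have h2 : ‖χ (F^[m] y) - χ y‖ < 2 * R := by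
    have := tri (χ (F^[m] y)) (χ x) (χ y)
    rw [norm_sub_rev (χ x) (χ y)] at this
    linarith
  have h3 := h1.trans_lt h2
  have h4 : Real.log (1 / (2 * R)) ≤ C * (1 + Real.log (1 / δ)) * (q : ℝ) ^ p := by
    have h5 := Real.log_le_log (Real.exp_pos _) h3.le
    rw [Real.log_exp] at h5
    rw [one_div, Real.log_inv]
    linarith
  have h6 : (q : ℝ) ^ p ≤ μ.real D ^ p / μ.real A ^ p := by
    rw [← Real.div_rpow measureReal_nonneg measureReal_nonneg]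
    exact Real.rpow_le_rpow (by positivity) hqle hp0.le
  have h7 : 0 < μ.real A ^ p := Real.rpow_pos_of_pos hApos p
  calc Real.log (1 / (2 * R)) * μ.real A ^ p
      ≤ C * (1 + Real.log (1 / δ)) * (q : ℝ) ^ p * μ.real A ^ p :=
        mul_le_mul_of_nonneg_right h4 h7.le
    _ ≤ C * (1 + Real.log (1 / δ)) * (μ.real D ^ p / μ.real A ^ p) * μ.real A ^ p := by
        apply mul_le_mul_of_nonneg_right _ h7.le
        exact mul_le_mul_of_nonneg_left h6 (by positivity)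
    _ = C * (1 + Real.log (1 / δ)) * μ.real D ^ p := by field_simp

/-- balls with centre near the centre of the chart: the measure is at most the gauge of the radius -/
theorem measure_balAt_le [MeasurableSpace N] {ρ p : ℝ} (hp : Adm k p) (hρ : 0 < ρ) (hρ1 : ρ ≤ 1)
    (h : MeasureLaw F K χ k ρ) : ∃ C : ℝ, 0 < C ∧ ∀ μ : Measure N, IsProbabilityMeasure μ →
      MeasurePreserving F μ μ → μ Kᶜ = 0 → ∀ x ∈ Bal χ ρ, ∀ R : ℝ, 0 < R → 2 * R ≤ ρ → R ≤ 1 / 16 →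
      μ.real (BalAt χ x (2 * R)) ≤ C * Real.log (1 / R) ^ (-(1 / p)) := by
  obtain ⟨C, hC, h1⟩ := h p hp
  have hp0 := hp.1
  have hlρ : 0 ≤ Real.log (1 / ρ) := Real.log_nonneg (by rw [le_div_iff₀ hρ]; linarith)
  refine ⟨(2 * (C * (1 + Real.log (1 / ρ)))) ^ (1 / p), by positivity, ?_⟩
  intro μ hμ hFμ hμK x hx R hR hRρ hR16
  have h2 := h1 μ hμ hFμ hμK x hx (2 * R) ρ (by positivity) hRρ le_rfl
  have h3 : μ.real (BalAt χ x (2 * ρ)) ^ p ≤ 1 :=
    Real.rpow_le_one measureReal_nonneg measureReal_le_one hp0.le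
  have h4 : Real.log (1 / (2 * (2 * R))) * μ.real (BalAt χ x (2 * R)) ^ p ≤
      C * (1 + Real.log (1 / ρ)) := by
    refine h2.trans ?_
    calc _ ≤ C * (1 + Real.log (1 / ρ)) * 1 := mul_le_mul_of_nonneg_left h3 (by positivity)
      _ = _ := mul_one _
  -- `log (1/(4R)) ≥ (1/2) log (1/R)`
  have hlR : 0 < Real.log (1 / R) := Real.log_pos (by rw [lt_div_iff₀ hR]; linarith)
  have h5 : Real.log (1 / R) / 2 ≤ Real.log (1 / (2 * (2 * R))) := by
    have e1 : Real.log (1 / R) / 2 = Real.log ((1 / R) ^ (1 / 2 : ℝ)) := by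
      rw [Real.log_rpow (by positivity)]
      ring
    rw [e1]
    apply Real.log_le_log (by positivity)
    rw [← Real.sqrt_eq_rpow, Real.sqrt_le_iff]
    refine ⟨by positivity, ?_⟩
    rw [div_pow, one_pow, div_le_div_iff₀ hR (by positivity)]
    nlinarith
  obtain ⟨a, ha⟩ : ∃ a, a = μ.real (BalAt χ x (2 * R)) := ⟨_, rfl⟩
  have ha0 : 0 ≤ a := by rw [ha]; exact measureReal_nonneg
  rw [← ha] at h4 ⊢
  have h6 : a ^ p ≤ 2 * (C * (1 + Real.log (1 / ρ))) * (Real.log (1 / R))⁻¹ := by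
    have h7 : Real.log (1 / R) / 2 * a ^ p ≤ C * (1 + Real.log (1 / ρ)) :=
      (mul_le_mul_of_nonneg_right h5 (Real.rpow_nonneg ha0 p)).trans h4
    rw [← div_eq_mul_inv, le_div_iff₀ hlR]
    linarith
  have h8 : a = (a ^ p) ^ (1 / p) := by
    rw [← Real.rpow_mul ha0, mul_one_div_cancel hp0.ne', Real.rpow_one]
  rw [h8]
  calc (a ^ p) ^ (1 / p) ≤ (2 * (C * (1 + Real.log (1 / ρ))) * (Real.log (1 / R))⁻¹) ^ (1 / p) :=
        Real.rpow_le_rpow (Real.rpow_nonneg ha0 p) h6 (by positivity)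
    _ = _ := by
        rw [Real.mul_rpow (by positivity) (by positivity), Real.inv_rpow hlR.le,
          ← Real.rpow_neg hlR.le]

/-- small gauge: small radius -/
theorem radius_small {p ε R : ℝ} (hp : 0 < p) (hR : 0 < R) (hR1 : R < 1) (hε : 0 < ε)
    (h : Real.log (1 / R) ^ (-(1 / p)) ≤ ε) : R ≤ Real.exp (-(ε ^ (-p))) := by
  have hlR : 0 < Real.log (1 / R) := Real.log_pos (by rw [lt_div_iff₀ hR]; linarith)
  have h1 : ε ^ (-p) ≤ Real.log (1 / R) := by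
    have h2 := Real.rpow_le_rpow_of_nonpos
      (Real.rpow_pos_of_pos hlR (-(1 / p))) h (by linarith : -p ≤ 0)
    rw [← Real.rpow_mul hlR.le] at h2
    have e : -(1 / p) * -p = 1 := by field_simp
    rwa [e, Real.rpow_one] at h2
  rw [one_div, Real.log_inv] at h1
  rw [← Real.log_le_iff_le_exp hR]
  linarith

theorem exists_small_eps {p : ℝ} (hp : 0 < p) (η : ℝ) (hη : 0 < η) :
    ∃ ε : ℝ, 0 < ε ∧ ∀ ε', 0 < ε' → ε' ≤ ε → Real.exp (-(ε' ^ (-p))) ≤ η := by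
  -- `ε^(-p) ≥ log (1/η)`
  obtain ⟨L, hL⟩ : ∃ L : ℝ, L = max 1 (Real.log (1 / η)) := ⟨_, rfl⟩
  have hL0 : 0 < L := by rw [hL]; exact lt_of_lt_of_le one_pos (le_max_left _ _)
  refine ⟨L ^ (-(1 / p)), Real.rpow_pos_of_pos hL0 _, ?_⟩
  intro ε' hε' hle
  have h1 : L ≤ ε' ^ (-p) := by
    have h2 := Real.rpow_le_rpow_of_nonpos hε' hle (by linarith : -p ≤ 0)
    rw [← Real.rpow_mul hL0.le] at h2
    have e : -(1 / p) * -p = 1 := by field_simp
    rwa [e, Real.rpow_one] at h2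
  have h3 : Real.log (1 / η) ≤ ε' ^ (-p) := (by rw [hL]; exact le_max_right _ _ : _ ≤ L).trans h1
  rw [one_div, Real.log_inv] at h3
  calc Real.exp (-(ε' ^ (-p))) ≤ Real.exp (Real.log η) := Real.exp_le_exp.mpr (by linarith)
    _ = η := Real.exp_log hη

/-- A measure carried by a set of zero Hausdorff measure vanishes near `z`. -/
theorem null_of_logNull [MeasurableSpace N] {ρ p : ℝ} (hp : Adm k p) (hρ : 0 < ρ)
    (h : MeasureLaw F K χ k ρ) (S : Set N) (hS : LogNull p S χ) :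
    ∃ ρ' : ℝ, 0 < ρ' ∧ ∀ μ : Measure N, IsProbabilityMeasure μ → MeasurePreserving F μ μ →
      μ Kᶜ = 0 → μ Sᶜ = 0 → μ (Bal χ ρ') = 0 := by
  obtain ⟨ρ₂, hρ₂, hcov⟩ := hS
  obtain ⟨ρ', hρ'⟩ : ∃ ρ' : ℝ, ρ' = min (min ρ 1) ρ₂ := ⟨_, rfl⟩
  have hρ'0 : 0 < ρ' := by rw [hρ']; positivity
  have h1 : ρ' ≤ ρ := by rw [hρ']; exact (min_le_left _ _).trans (min_le_left _ _)
  have h2 : ρ' ≤ 1 := by rw [hρ']; exact (min_le_left _ _).trans (min_le_right _ _)
  have h3 : ρ' ≤ ρ₂ := by rw [hρ']; exact min_le_right _ _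
  obtain ⟨C, hC, hbd⟩ := measure_balAt_le hp hρ'0 h2 (h.mono h1)
  refine ⟨ρ', hρ'0, ?_⟩
  intro μ hμ hFμ hμK hμS
  obtain ⟨ε₀, hε₀, hsm⟩ := exists_small_eps hp.1 (min (ρ' / 2) (1 / 16)) (by positivity)
  have key : ∀ ε : ℝ, 0 < ε → ε ≤ ε₀ → μ (Bal χ ρ') ≤ ENNReal.ofReal (C * ε) := by
    intro ε hε hεε
    obtain ⟨e, R, hR, hsum, hSc⟩ := hcov ε hε
    have hterm : ∀ i, Real.log (1 / R i) ^ (-(1 / p)) ≤ ε := by
      intro i
      have h4 := (ENNReal.le_tsum i).trans hsum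
      exact (ENNReal.ofReal_le_ofReal_iff hε.le).mp h4
    have hRs : ∀ i, R i ≤ min (ρ' / 2) (1 / 16) := by
      intro i
      exact (radius_small hp.1 (hR i).1 (hR i).2 hε (hterm i)).trans (hsm ε hε hεε)
    obtain ⟨B, hB⟩ : ∃ B : ℕ → Set N, B = fun i => {u | u ∈ Bal χ ρ' ∧ ‖χ u - e i‖ < R i} := ⟨_, rfl⟩
    have hsub : Bal χ ρ' ⊆ Sᶜ ∪ ⋃ i, B i := by
      intro u hu
      by_cases huS : u ∈ S
      · obtain ⟨i, hi⟩ := hSc u (Bal_mono h3 hu) huS
        refine Or.inr (mem_iUnion.mpr ⟨i, ?_⟩)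
        rw [hB]
        exact ⟨hu, hi⟩
      · exact Or.inl huS
    have hBi : ∀ i, μ (B i) ≤ ENNReal.ofReal C * ENNReal.ofReal (Real.log (1 / R i) ^ (-(1 / p))) := by
      intro i
      by_cases hne : (B i).Nonempty
      · obtain ⟨x, hx⟩ := hne
        have hx' : x ∈ Bal χ ρ' ∧ ‖χ x - e i‖ < R i := by rw [hB] at hx; exact hx
        have h5 : B i ⊆ BalAt χ x (2 * R i) := by
          intro u hu
          have hu' : u ∈ Bal χ ρ' ∧ ‖χ u - e i‖ < R i := by rw [hB] at hu; exact hu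
          refine ⟨hu'.1.1, ?_⟩
          have := tri (χ u) (e i) (χ x)
          rw [norm_sub_rev (e i) (χ x)] at this
          linarith [hu'.2, hx'.2]
        have h6 := hRs i
        have h7 := hbd μ hμ hFμ hμK x hx'.1 (R i) (hR i).1
          (by have := min_le_left (ρ' / 2) (1 / 16 : ℝ); linarith)
          (h6.trans (min_le_right _ _))
        rw [← ENNReal.ofReal_mul hC.le]
        refine (measure_mono h5).trans ?_
        rw [← ENNReal.ofReal_toReal (measure_ne_top μ (BalAt χ x (2 * R i)))]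
        exact ENNReal.ofReal_le_ofReal h7
      · rw [Set.not_nonempty_iff_eq_empty.mp hne, measure_empty]
        exact zero_le
    calc μ (Bal χ ρ') ≤ μ (Sᶜ ∪ ⋃ i, B i) := measure_mono hsub
      _ ≤ μ Sᶜ + μ (⋃ i, B i) := measure_union_le _ _
      _ = μ (⋃ i, B i) := by rw [hμS, zero_add]
      _ ≤ ∑' i, μ (B i) := measure_iUnion_le _
      _ ≤ ∑' i, ENNReal.ofReal C * ENNReal.ofReal (Real.log (1 / R i) ^ (-(1 / p))) :=
          ENNReal.tsum_le_tsum hBi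
      _ = ENNReal.ofReal C * ∑' i, ENNReal.ofReal (Real.log (1 / R i) ^ (-(1 / p))) :=
          ENNReal.tsum_mul_left
      _ ≤ ENNReal.ofReal C * ENNReal.ofReal ε := mul_le_mul' le_rfl hsum
      _ = ENNReal.ofReal (C * ε) := (ENNReal.ofReal_mul hC.le).symm
  by_contra hne
  have hpos : 0 < (μ (Bal χ ρ')).toReal :=
    ENNReal.toReal_pos hne (measure_ne_top μ _)
  obtain ⟨a, ha⟩ : ∃ a, a = (μ (Bal χ ρ')).toReal := ⟨_, rfl⟩
  rw [← ha] at hpos
  have h8 := key (min ε₀ (a / (2 * C))) (by positivity) (min_le_left _ _)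
  have h9 : a ≤ C * min ε₀ (a / (2 * C)) := by
    have h12 := ENNReal.toReal_le_of_le_ofReal (by positivity) h8
    rwa [← ha] at h12
  have h10 : C * min ε₀ (a / (2 * C)) ≤ C * (a / (2 * C)) :=
    mul_le_mul_of_nonneg_left (min_le_right _ _) hC.le
  have h11 : C * (a / (2 * C)) = a / 2 := by field_simp
  linarith

end

end Pool.Agent.U882.EC
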