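import Pool.Agent.U882.EC.MLaw
import Pool.Agent.U882.FW.Cover

/-!
# Minimal sets
-/

set_option autoImplicit false

open scoped Manifold ContDiff Topology
open Filter Set Metric MeasureTheory

universe u

namespace Pool.Agent.U882.EC

open Pool.Agent.H718R2.G Pool.Agent.W564.SC Pool.Agent.U882.FW

section

variable {N : Type*} {F : N → N}

theorem cnt_union_le (F : N → N) (P Q : Set N) (y : N) (m : ℕ) :
    cnt F (P ∪ Q) y m ≤ cnt F P y m + cnt F Q y m := by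
  classical
  rw [cnt_eq_sum, cnt_eq_sum, cnt_eq_sum, ← Finset.sum_add_distrib]
  apply Finset.sum_le_sum
  intro i _
  by_cases h1 : F^[i] y ∈ P <;> by_cases h2 : F^[i] y ∈ Q <;> simp [h1, h2]

theorem cnt_biUnion_le {ι : Type*} (F : N → N) (E : Finset ι) (P : ι → Set N) (y : N) (m : ℕ) :
    cnt F (⋃ i ∈ E, P i) y m ≤ ∑ i ∈ E, cnt F (P i) y m := by
  classical
  induction E using Finset.induction_on with
  | empty =>
    simp only [Finset.notMem_empty, iUnion_of_empty, iUnion_empty, Finset.sum_empty]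
    rw [cnt_eq_sum]
    simp
  | insert a E ha ih =>
    rw [Finset.sum_insert ha]
    have e : (⋃ i ∈ insert a E, P i) = P a ∪ ⋃ i ∈ E, P i := by
      simp
    rw [e]
    exact (cnt_union_le F _ _ y m).trans (Nat.add_le_add_left ih _)

/-- visits in all windows of length `L` -/
theorem le_cnt_mul {P K : Set N} (hFK : MapsTo F K K) (L : ℕ) (h : ∀ y ∈ K, 1 ≤ cnt F P y L) :
    ∀ (j : ℕ) (y : N), y ∈ K → j ≤ cnt F P y (j * L) := by
  intro j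
  induction j with
  | zero => intro y _; exact Nat.zero_le _
  | succ j ih =>
    intro y hy
    rw [show (j + 1) * L = L + j * L by ring, cnt_add]
    have h1 := h y hy
    have h2 := ih (F^[L] y) (iter_mem hFK hy L)
    omega

/-- dense orbits visit uniformly often -/
theorem exists_uniform_time [TopologicalSpace N] (hF : Continuous F) {K : Set N} (hK : IsCompact K)
    (hD : DenseOrbits F K) {W : Set N} (hW : IsOpen W) (hWK : (W ∩ K).Nonempty) :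
    ∃ L : ℕ, ∀ y ∈ K, ∃ i < L, F^[i] y ∈ W := by
  have hcov : K ⊆ ⋃ i : ℕ, F^[i] ⁻¹' W := by
    intro y hy
    obtain ⟨w, hwW, hwK⟩ := hWK
    obtain ⟨u, huW, i, hi⟩ := mem_closure_iff.mp (hD y hy hwK) W hW hwW
    exact mem_iUnion.mpr ⟨i, by rw [mem_preimage, hi]; exact huW⟩
  obtain ⟨t, ht⟩ := hK.elim_finite_subcover (fun i : ℕ => F^[i] ⁻¹' W)
    (fun i => hW.preimage (hF.iterate i)) hcov
  refine ⟨t.sup id + 1, fun y hy => ?_⟩
  obtain ⟨i, hi, hyi⟩ := mem_iUnion₂.mp (ht hy)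
  exact ⟨i, Nat.lt_succ_of_le (Finset.le_sup (f := id) hi), hyi⟩

end

section

variable {n : ℕ} {N : Type u} [TopologicalSpace N] {F : N → N} {K : Set N}
  {χ : OpenPartialHomeomorph N (V n)} {k : ℕ} {κ : ℝ}

/-- The orbits in `K` visit a small ball of radius `R` at most `1 + C M gauge(R)` times before the
time `M`. -/
theorem visits_small (h : NCK F K χ k κ) (hFK : MapsTo F K K) (hk : 2 ≤ k) (hκ : 0 < κ)
    (hκ1 : κ ≤ 1 / 8) {p : ℝ} (hp : Adm k p) : ∃ C : ℝ, 0 < C ∧ ∀ (e : V n) (R : ℝ), 0 < R →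
      R ≤ 1 / 16 → ∀ (x : N) (M : ℕ),
      (cnt F {u | u ∈ Bal χ (κ / 2) ∧ u ∈ K ∧ ‖χ u - e‖ < R} (F x) M : ℝ) ≤
        1 + M * (C * Real.log (1 / R) ^ (-(1 / p))) := by
  obtain ⟨C, hC, hlaw⟩ := law_exp h hFK hk hκ (by linarith) p hp
  have hp0 := hp.1
  have hlκ : 0 ≤ Real.log (1 / κ) := Real.log_nonneg (by rw [le_div_iff₀ hκ]; linarith)
  obtain ⟨C₁, hC₁⟩ : ∃ C₁, C₁ = C * (1 + Real.log (1 / κ)) := ⟨_, rfl⟩
  have hC₁0 : 0 < C₁ := by rw [hC₁]; positivity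
  refine ⟨(2 * C₁) ^ (1 / p), by positivity, ?_⟩
  intro e R hR hR16 x M
  have hlR : 0 < Real.log (1 / R) := Real.log_pos (by rw [lt_div_iff₀ hR]; linarith)
  have h5 : Real.log (1 / R) / 2 ≤ Real.log (1 / (2 * R)) := by
    have e1 : Real.log (1 / R) / 2 = Real.log ((1 / R) ^ (1 / 2 : ℝ)) := by
      rw [Real.log_rpow (by positivity)]
      ring
    rw [e1]
    apply Real.log_le_log (by positivity)
    rw [← Real.sqrt_eq_rpow, Real.sqrt_le_iff]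
    refine ⟨by positivity, ?_⟩
    rw [div_pow, one_pow, div_le_div_iff₀ hR (by positivity)]
    nlinarith
  obtain ⟨P, hP⟩ : ∃ P : Set N, P = {u | u ∈ Bal χ (κ / 2) ∧ u ∈ K ∧ ‖χ u - e‖ < R} := ⟨_, rfl⟩
  have hPmem : ∀ u, u ∈ P ↔ u ∈ Bal χ (κ / 2) ∧ u ∈ K ∧ ‖χ u - e‖ < R := by
    intro u
    rw [hP]
    rfl
  rw [← hP]
  obtain ⟨g, hg⟩ : ∃ g : ℝ, g = (Real.log (1 / R) / (2 * C₁)) ^ (1 / p) := ⟨_, rfl⟩
  have hg0 : 0 < g := by rw [hg]; positivity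
  -- the gaps
  have hgap : ∀ y ∈ P, ∀ m, 1 ≤ m → F^[m] y ∈ P → ⌈g⌉₊ ≤ cnt F univ (F y) m := by
    intro y hy m hm hmy
    rw [cnt_univ]
    obtain ⟨⟨y1, y2⟩, y3, y4⟩ := (hPmem y).mp hy
    obtain ⟨⟨m1, m2⟩, m3, m4⟩ := (hPmem _).mp hmy
    have h1 := hlaw κ hκ le_rfl m y m y3 hm hm y1 m1 y2 m2 (cnt_le_self _ _ _ _)
    have h2 : ‖χ (F^[m] y) - χ y‖ < 2 * R := by
      have := tri (χ (F^[m] y)) e (χ y)
      rw [norm_sub_rev e (χ y)] at this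
      linarith
    have h3 := Real.log_le_log (Real.exp_pos _) (h1.trans_lt h2).le
    rw [Real.log_exp, ← hC₁] at h3
    have h4 : Real.log (1 / (2 * R)) ≤ C₁ * (m : ℝ) ^ p := by
      rw [one_div, Real.log_inv]
      linarith
    have h6 : Real.log (1 / R) / (2 * C₁) ≤ (m : ℝ) ^ p := by
      rw [div_le_iff₀ (by positivity)]
      linarith
    rw [Nat.ceil_le, hg]
    calc (Real.log (1 / R) / (2 * C₁)) ^ (1 / p) ≤ ((m : ℝ) ^ p) ^ (1 / p) :=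
          Real.rpow_le_rpow (by positivity) h6 (by positivity)
      _ = m := by rw [← Real.rpow_mul (by positivity), mul_one_div_cancel hp0.ne', Real.rpow_one]
  have hcnt := cnt_returns' hgap M x
  rw [cnt_univ] at hcnt
  have hcnt' : (⌈g⌉₊ : ℝ) * cnt F P (F x) M ≤ M + ⌈g⌉₊ := by exact_mod_cast hcnt
  have hcg : g ≤ (⌈g⌉₊ : ℝ) := Nat.le_ceil g
  have hcg0 : (0 : ℝ) < ⌈g⌉₊ := hg0.trans_le hcg
  have h7 : (cnt F P (F x) M : ℝ) ≤ 1 + M / ⌈g⌉₊ := by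
    rw [← sub_nonneg]
    have : 1 + (M : ℝ) / ⌈g⌉₊ - cnt F P (F x) M = (M + ⌈g⌉₊ - ⌈g⌉₊ * cnt F P (F x) M) / ⌈g⌉₊ := by
      field_simp
      ring
    rw [this]
    apply div_nonneg _ hcg0.le
    linarith
  refine h7.trans ?_
  have h8 : (M : ℝ) / ⌈g⌉₊ ≤ M / g := by
    apply div_le_div_of_nonneg_left (by positivity) hg0 hcg
  have h9 : (M : ℝ) / g = M * ((2 * C₁) ^ (1 / p) * Real.log (1 / R) ^ (-(1 / p))) := by
    rw [hg, Real.div_rpow hlR.le (by positivity), Real.rpow_neg hlR.le]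
    field_simp
  linarith

/-- The orbits in `K` visit the ball `‖χ‖ < ρ'` with upper density zero, uniformly. -/
theorem density_zero [T2Space N] (h : NCK F K χ k κ) (hK : IsClosed K) (hFK : MapsTo F K K)
    (hk : 2 ≤ k) (hκ : 0 < κ) (hκ1 : κ ≤ 1 / 8) (hb : closedBall (0 : V n) 1 ⊆ χ.target) {p : ℝ}
    (hp : Adm k p) (hS : LogNull p K χ) :
    ∃ ρ' : ℝ, 0 < ρ' ∧ ∀ ε : ℝ, 0 < ε → ∃ E : ℕ, ∀ x ∈ K, ∀ M : ℕ,
      (cnt F (Bal χ ρ' ∩ K) (F x) M : ℝ) ≤ E + M * ε := by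
  obtain ⟨ρ₂, hρ₂, hcov⟩ := hS
  obtain ⟨C, hC, hvis⟩ := visits_small h hFK hk hκ hκ1 hp
  obtain ⟨ρ', hρ'⟩ : ∃ ρ' : ℝ, ρ' = min (κ / 4) (ρ₂ / 2) := ⟨_, rfl⟩
  have hρ'0 : 0 < ρ' := by rw [hρ']; positivity
  have h1 : ρ' ≤ κ / 4 := by rw [hρ']; exact min_le_left _ _
  have h2 : ρ' ≤ ρ₂ / 2 := by rw [hρ']; exact min_le_right _ _
  refine ⟨ρ', hρ'0, ?_⟩
  intro ε hε
  obtain ⟨ε₀, hε₀, hsm⟩ := exists_small_eps hp.1 (1 / 16) (by positivity)
  obtain ⟨η, hη⟩ : ∃ η : ℝ, η = min ε₀ (ε / C) := ⟨_, rfl⟩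
  have hη0 : 0 < η := by rw [hη]; positivity
  obtain ⟨e, R, hR, hsum, hSc⟩ := hcov η hη0
  have hterm : ∀ i, Real.log (1 / R i) ^ (-(1 / p)) ≤ η := by
    intro i
    have h4 := (ENNReal.le_tsum i).trans hsum
    exact (ENNReal.ofReal_le_ofReal_iff hη0.le).mp h4
  have hRs : ∀ i, R i ≤ 1 / 16 := by
    intro i
    exact (radius_small hp.1 (hR i).1 (hR i).2 hη0 (hterm i)).trans
      (hsm η hη0 (by rw [hη]; exact min_le_left _ _))
  -- compactness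
  obtain ⟨Q, hQ⟩ : ∃ Q : Set N, Q = χ.symm '' closedBall 0 ρ' ∩ K := ⟨_, rfl⟩
  have hsub : closedBall (0 : V n) ρ' ⊆ χ.target := (closedBall_subset_closedBall (by linarith)).trans hb
  have hQc : IsCompact Q := by
    rw [hQ]
    apply IsCompact.inter_right _ hK
    exact (isCompact_closedBall _ _).image_of_continuousOn (χ.symm.continuousOn.mono hsub)
  obtain ⟨B, hB⟩ : ∃ B : ℕ → Set N, B = fun i => {u | u ∈ χ.source ∧ ‖χ u - e i‖ < R i} := ⟨_, rfl⟩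
  have hBo : ∀ i, IsOpen (B i) := by
    intro i
    have e1 : B i = χ.source ∩ χ ⁻¹' ball (e i) (R i) := by
      rw [hB]
      ext u
      simp only [mem_ofPred_eq, mem_inter_iff, mem_preimage, mem_ball_iff_norm]
    rw [e1]
    exact χ.isOpen_inter_preimage isOpen_ball
  have hQB : Q ⊆ ⋃ i, B i := by
    rw [hQ]
    rintro u ⟨⟨v, hv, rfl⟩, huK⟩
    have hvt := hsub hv
    rw [mem_closedBall_zero_iff] at hv
    have hus : χ.symm v ∈ χ.source := χ.map_target hvt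
    obtain ⟨i, hi⟩ := hSc (χ.symm v) ⟨hus, by rw [χ.right_inv hvt]; linarith⟩ huK
    refine mem_iUnion.mpr ⟨i, ?_⟩
    rw [hB]
    exact ⟨hus, hi⟩
  obtain ⟨t, ht⟩ := hQc.elim_finite_subcover B hBo hQB
  refine ⟨t.card, ?_⟩
  intro x hx M
  have h3 : Bal χ ρ' ∩ K ⊆ ⋃ i ∈ t, {u | u ∈ Bal χ (κ / 2) ∧ u ∈ K ∧ ‖χ u - e i‖ < R i} := by
    rintro u ⟨⟨hu1, hu2⟩, huK⟩
    have huQ : u ∈ Q := by
      rw [hQ]
      refine ⟨⟨χ u, ?_, χ.left_inv hu1⟩, huK⟩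
      rw [mem_closedBall_zero_iff]
      exact hu2.le
    obtain ⟨i, hi, hiB⟩ := mem_iUnion₂.mp (ht huQ)
    refine mem_iUnion₂.mpr ⟨i, hi, ⟨hu1, by linarith⟩, huK, ?_⟩
    rw [hB] at hiB
    exact hiB.2
  have h4 := (cnt_mono F h3 (F x) M).trans (cnt_biUnion_le F t _ (F x) M)
  have h5 : (cnt F (Bal χ ρ' ∩ K) (F x) M : ℝ) ≤
      ∑ i ∈ t, (cnt F {u | u ∈ Bal χ (κ / 2) ∧ u ∈ K ∧ ‖χ u - e i‖ < R i} (F x) M : ℝ) := by
    exact_mod_cast h4
  refine h5.trans ?_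
  have h6 : ∀ i ∈ t, (cnt F {u | u ∈ Bal χ (κ / 2) ∧ u ∈ K ∧ ‖χ u - e i‖ < R i} (F x) M : ℝ) ≤
      1 + M * (C * Real.log (1 / R i) ^ (-(1 / p))) := fun i _ =>
    hvis (e i) (R i) (hR i).1 (hRs i) x M
  refine (Finset.sum_le_sum h6).trans ?_
  rw [Finset.sum_add_distrib, Finset.sum_const, nsmul_eq_mul, mul_one, ← Finset.mul_sum,
    ← Finset.mul_sum]
  have h7 : ∑ i ∈ t, Real.log (1 / R i) ^ (-(1 / p)) ≤ η := by
    have hnn : ∀ i ∈ t, 0 ≤ Real.log (1 / R i) ^ (-(1 / p)) := by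
      intro i _
      apply Real.rpow_nonneg
      apply Real.log_nonneg
      rw [le_div_iff₀ (hR i).1]
      linarith [(hR i).2]
    have h8 := (ENNReal.sum_le_tsum t).trans hsum
    rw [← ENNReal.ofReal_sum_of_nonneg hnn] at h8
    exact (ENNReal.ofReal_le_ofReal_iff hη0.le).mp h8
  have h9 : C * ∑ i ∈ t, Real.log (1 / R i) ^ (-(1 / p)) ≤ ε := by
    calc _ ≤ C * η := mul_le_mul_of_nonneg_left h7 hC.le
      _ ≤ C * (ε / C) := mul_le_mul_of_nonneg_left (by rw [hη]; exact min_le_right _ _) hC.le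
      _ = ε := by field_simp
  have h10 := mul_le_mul_of_nonneg_left h9 (Nat.cast_nonneg M : (0 : ℝ) ≤ M)
  linarith

/-- minimal sets: no uniformly sparse visits -/
theorem false_of_minimal [T2Space N] [CompactSpace N] (hF : Continuous F) (h : NCK F K χ k κ)
    (hK : IsClosed K) (hFK : MapsTo F K K) (hk : 2 ≤ k) (hκ : 0 < κ) (hκ1 : κ ≤ 1 / 8)
    (hb : closedBall (0 : V n) 1 ⊆ χ.target) {p : ℝ} (hp : Adm k p) (hS : LogNull p K χ)
    (hD : DenseOrbits F K) {z : N} (hz : z ∈ χ.source) (h0 : χ z = 0) (hzK : z ∈ K) : False := by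
  obtain ⟨ρ', hρ', hden⟩ := density_zero h hK hFK hk hκ hκ1 hb hp hS
  obtain ⟨L, hL⟩ := exists_uniform_time hF hK.isCompact hD (isOpen_bal χ ρ')
    ⟨z, ⟨hz, by rw [h0, norm_zero]; exact hρ'⟩, hzK⟩
  have hL1 : ∀ y ∈ K, 1 ≤ cnt F (Bal χ ρ' ∩ K) y L := by
    intro y hy
    obtain ⟨i, hi, hiW⟩ := hL y hy
    exact cnt_pos F _ y L i hi ⟨hiW, iter_mem hFK hy i⟩
  have hLpos : 0 < L := by
    obtain ⟨i, hi, -⟩ := hL z hzK
    omega
  have hLR : (0 : ℝ) < L := by exact_mod_cast hLpos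
  obtain ⟨E, hE⟩ := hden (1 / (2 * L)) (by positivity)
  have h1 := hE z hzK ((2 * E + 1) * L)
  have h2 := le_cnt_mul hFK L hL1 (2 * E + 1) (F z) (hFK hzK)
  have h3 : ((2 * E + 1 : ℕ) : ℝ) ≤ cnt F (Bal χ ρ' ∩ K) (F z) ((2 * E + 1) * L) := by
    exact_mod_cast h2
  push_cast at h1 h3
  have h4 : (2 * (E : ℝ) + 1) * L * (1 / (2 * L)) = (2 * E + 1) / 2 := by field_simp
  linarith

end

section

variable {n : ℕ} {N : Type u} [TopologicalSpace N] [T2Space N] [CompactSpace N]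
  [ChartedSpace (V n) N] [IsManifold (𝓡 n) ∞ N] {r : ℕ∞} {p : ℝ}

/-- The `C^r` closing lemma inside minimal sets which are null sets. -/
theorem closableIn_minimal (hr : 2 ≤ r) (hp : AdmUpTo r p) (F : DiffM n N r) (K : Set N)
    (hK : IsClosed K) (hFK : MapsTo F K K) (hD : DenseOrbits F K) (z : N) (hzK : z ∈ K)
    (χ : OpenPartialHomeomorph N (V n)) (hχ : GoodChart n N χ z) (hS : LogNull p K χ) :
    ClosableIn n N r F K z := by
  by_contra hcon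
  obtain ⟨k, κ, hk, hkr, hκ, hκ1, h⟩ := nck_of_not_closableIn hr F K z hzK χ hχ hcon
  exact false_of_minimal F.toHomeomorph.continuous h hK hFK hk hκ hκ1 hχ.ball (hp k hkr) hS hD
    hχ.src hχ.zero hzK

end

end Pool.Agent.U882.EC
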