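import Pool.Agent.U882.FW.Law
import Pool.Agent.U882.FW.AdmZ

/-!
# The laws of the returns, relative to a forward invariant set
-/

set_option autoImplicit false

open Filter Set Metric Topology

namespace Pool.Agent.U882.EC

open Pool.Agent.H718R2.G Pool.Agent.U882.FW

section

variable {n : ℕ} {N : Type*} [TopologicalSpace N] {F : N → N} {K : Set N}
  {χ : OpenPartialHomeomorph N (V n)} {k : ℕ} {κ : ℝ}

/-- No closing inside `K`, in the presence of `≤ k` intermediate returns. -/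
def NCK (F : N → N) (K : Set N) (χ : OpenPartialHomeomorph N (V n)) (k : ℕ) (κ : ℝ) : Prop :=
  ∀ (y : N) (ρ : ℝ) (m : ℕ) (T : Finset ℕ), y ∈ K → y ∈ χ.source → ‖χ y‖ < κ → 0 < ρ → ρ < κ →
    1 ≤ m → T.card ≤ k → (∀ i ∈ T, F^[i] y ∈ χ.source ∧ 0 < ‖χ (F^[i] y) - χ y‖ ∧
      ‖χ (F^[i] y) - χ y‖ ≤ 2 * ρ) → F^[m] y ∈ χ.source →
    ‖χ (F^[m] y) - χ y‖ * (∏ i ∈ T, ρ / ‖χ (F^[i] y) - χ y‖) < κ * ρ ^ k →
    ∃ i, 0 < i ∧ i < m ∧ i ∉ T ∧ F^[i] y ∈ χ.source ∧ ‖χ (F^[i] y) - χ y‖ < 2 * ρ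

theorem NCK.mono {κ' : ℝ} (h : NCK F K χ k κ) (hκ : κ' ≤ κ) : NCK F K χ k κ' := by
  intro y ρ m T hyK hy hyκ hρ hρκ hm hTk hT hmy hd
  refine h y ρ m T hyK hy (hyκ.trans_le hκ) hρ (hρκ.trans_le hκ) hm hTk hT hmy (hd.trans_le ?_)
  exact mul_le_mul_of_nonneg_right hκ (by positivity)

/-- there are no periodic points -/
theorem NCK.not_per (h : NCK F K χ k κ) (hκ : 0 < κ) (y : N) (hyK : y ∈ K) (hy : y ∈ χ.source) (hyκ : ‖χ y‖ < κ) :
    ∀ m, 1 ≤ m → F^[m] y ≠ y := by
  intro m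
  induction m using Nat.strong_induction_on with
  | _ m ih =>
    intro hm hmy
    have h1 : ∀ i ∈ Finset.Ioo 0 m, ∃ ρ : ℝ, 0 < ρ ∧ (F^[i] y ∈ χ.source →
        2 * ρ ≤ ‖χ (F^[i] y) - χ y‖) := by
      intro i hi
      rw [Finset.mem_Ioo] at hi
      by_cases hs : F^[i] y ∈ χ.source
      · have hne : χ (F^[i] y) - χ y ≠ 0 := by
          intro h0
          exact ih i hi.2 hi.1 (χ.injOn hs hy (sub_eq_zero.mp h0))
        have hpos : 0 < ‖χ (F^[i] y) - χ y‖ := norm_pos_iff.mpr hne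
        exact ⟨‖χ (F^[i] y) - χ y‖ / 2, by positivity, fun _ => by linarith⟩
      · exact ⟨1, one_pos, fun h => absurd h hs⟩
    choose! g g1 g2 using h1
    obtain ⟨ρ, hρ0, hρκ, hρ⟩ : ∃ ρ : ℝ, 0 < ρ ∧ ρ < κ ∧ ∀ i ∈ Finset.Ioo 0 m, ρ ≤ g i := by
      by_cases hne : (Finset.Ioo 0 m).Nonempty
      · obtain ⟨i0, hi0, hmin⟩ := Finset.exists_min_image _ g hne
        refine ⟨min (g i0) (κ / 2), lt_min (g1 i0 hi0) (by positivity),
          (min_le_right _ _).trans_lt (by linarith), fun i hi => (min_le_left _ _).trans (hmin i hi)⟩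
      · rw [Finset.not_nonempty_iff_eq_empty] at hne
        refine ⟨κ / 2, by positivity, by linarith, ?_⟩
        rw [hne]
        simp
    obtain ⟨i, hi0, him, -, his, hid⟩ := h y ρ m ∅ hyK hy hyκ hρ0 hρκ hm (by simp) (by simp)
      (by rw [hmy]; exact hy) (by
      rw [hmy, sub_self, norm_zero]
      simp only [Finset.prod_empty, mul_one]
      positivity)
    have hi : i ∈ Finset.Ioo 0 m := Finset.mem_Ioo.mpr ⟨hi0, him⟩
    have h3 := g2 i hi his
    have h4 := hρ i hi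
    linarith

/-- the product law with a parameter `δ` -/
theorem NCK.star' (h : NCK F K χ k κ) (hk : 1 ≤ k) (hκ : 0 < κ) (δ : ℝ) (hδ : 0 < δ)
    (hδκ : δ ≤ κ) (y : N) (hyK : y ∈ K) (hy : y ∈ χ.source) (hyκ : ‖χ y‖ < κ) (m : ℕ) (hm : 1 ≤ m)
    (hmy : F^[m] y ∈ χ.source) :
    ∃ T : Finset ℕ, T.card ≤ k ∧ (∀ i ∈ T, 0 < i ∧ i < m ∧ F^[i] y ∈ χ.source ∧
      ‖χ (F^[i] y) - χ y‖ < δ) ∧
      κ * (δ / 2) ^ (k - T.card) * ∏ i ∈ T, ‖χ (F^[i] y) - χ y‖ ≤ ‖χ (F^[m] y) - χ y‖ := by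
  classical
  obtain ⟨d, hd⟩ : ∃ d : ℕ → ℝ, d = fun i => ‖χ (F^[i] y) - χ y‖ := ⟨_, rfl⟩
  obtain ⟨I, hI⟩ : ∃ I : Finset ℕ, I = (Finset.Ioo 0 m).filter fun i => F^[i] y ∈ χ.source ∧ d i < δ :=
    ⟨_, rfl⟩
  have hmem : ∀ i, i ∈ I ↔ (0 < i ∧ i < m) ∧ F^[i] y ∈ χ.source ∧ d i < δ := by
    intro i
    rw [hI, Finset.mem_filter, Finset.mem_Ioo]
  have hpos : ∀ i ∈ I, 0 < d i := by
    intro i hi
    rw [hmem] at hi
    rw [hd]
    apply norm_pos_iff.mpr
    intro h0
    exact h.not_per hκ y hyK hy hyκ i hi.1.1 (χ.injOn hi.2.1 hy (sub_eq_zero.mp h0))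
  -- the common conclusion
  have key : ∀ (T : Finset ℕ) (ρ : ℝ), T ⊆ I → T.card ≤ k → 0 < ρ → ρ < κ → (∀ i ∈ T, d i ≤ 2 * ρ) →
      (∀ i ∈ I, i ∉ T → 2 * ρ ≤ d i) → 2 * ρ ≤ δ →
      κ * ρ ^ k * ∏ i ∈ T, (d i / ρ) ≤ d m := by
    intro T ρ hTI hTk hρ hρκ h1 h2 h3
    by_contra hcon
    push Not at hcon
    have h4 : d m * ∏ i ∈ T, ρ / d i < κ * ρ ^ k := by
      have h5 : (∏ i ∈ T, (d i / ρ)) * (∏ i ∈ T, ρ / d i) = 1 := by
        rw [← Finset.prod_mul_distrib]
        apply Finset.prod_eq_one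
        intro i hi
        have := hpos i (hTI hi)
        field_simp
      have h6 : 0 < ∏ i ∈ T, ρ / d i := Finset.prod_pos fun i hi => by
        have := hpos i (hTI hi)
        positivity
      calc d m * ∏ i ∈ T, ρ / d i < κ * ρ ^ k * (∏ i ∈ T, (d i / ρ)) * ∏ i ∈ T, ρ / d i :=
            mul_lt_mul_of_pos_right hcon h6
        _ = κ * ρ ^ k := by rw [mul_assoc, h5, mul_one]
    rw [hd] at h4
    obtain ⟨i, hi0, him, hiT, his, hid⟩ := h y ρ m T hyK hy hyκ hρ hρκ hm hTk (by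
      intro i hi
      have h7 := hpos i (hTI hi)
      have h8 := h1 i hi
      rw [hd] at h7 h8
      exact ⟨((hmem i).mp (hTI hi)).2.1, h7, h8⟩) hmy h4
    have hiI : i ∈ I := by
      rw [hmem]
      refine ⟨⟨hi0, him⟩, his, ?_⟩
      rw [hd]
      exact lt_of_lt_of_le hid h3
    have := h2 i hiI hiT
    rw [hd] at this
    exact absurd hid (not_lt.mpr this)
  have hfin : ∀ T : Finset ℕ, T ⊆ I → ∀ i ∈ T, 0 < i ∧ i < m ∧ F^[i] y ∈ χ.source ∧
      ‖χ (F^[i] y) - χ y‖ < δ := by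
    intro T hTI i hi
    obtain ⟨⟨a1, a2⟩, a3, a4⟩ := (hmem i).mp (hTI hi)
    rw [hd] at a4
    exact ⟨a1, a2, a3, a4⟩
  by_cases hcard : I.card ≤ k
  · refine ⟨I, hcard, hfin I (Finset.Subset.refl _), ?_⟩
    have h1 := key I (δ / 2) (Finset.Subset.refl _) hcard (by positivity) (by linarith)
      (fun i hi => by
        have := ((hmem i).mp hi).2.2
        linarith) (fun i hi hi2 => absurd hi hi2) (by linarith)
    rw [hd] at h1
    refine le_trans (le_of_eq ?_) h1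
    rw [Finset.prod_div_distrib, Finset.prod_const, mul_assoc, mul_assoc]
    congr 1
    have e : (δ / 2) ^ k = (δ / 2) ^ (k - I.card) * (δ / 2) ^ I.card := by
      rw [← pow_add]
      congr 1
      omega
    rw [e]
    field_simp
  · push Not at hcard
    obtain ⟨T, hT, hmin⟩ := Finset.exists_min_image (I.powersetCard k) (fun T => ∑ i ∈ T, d i)
      (Finset.powersetCard_nonempty.mpr hcard.le)
    rw [Finset.mem_powersetCard] at hT
    obtain ⟨hTI, hTk⟩ := hT
    have hTne : T.Nonempty := by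
      rw [← Finset.card_pos]
      omega
    obtain ⟨i0, hi0, hmax⟩ := Finset.exists_max_image T d hTne
    have hi0pos := hpos i0 (hTI hi0)
    have hout : ∀ i ∈ I, i ∉ T → d i0 ≤ d i := by
      intro i hi hiT
      have h1 : insert i (T.erase i0) ∈ I.powersetCard k := by
        rw [Finset.mem_powersetCard]
        constructor
        · intro j hj
          rcases Finset.mem_insert.mp hj with rfl | hj
          · exact hi
          · exact hTI (Finset.mem_of_mem_erase hj)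
        · rw [Finset.card_insert_of_notMem (fun h => hiT (Finset.mem_of_mem_erase h)),
            Finset.card_erase_of_mem hi0]
          omega
      have h2 := hmin _ h1
      rw [Finset.sum_insert (fun h => hiT (Finset.mem_of_mem_erase h)),
        ← Finset.add_sum_erase T d hi0] at h2
      linarith
    have hi0δ : d i0 < δ := ((hmem i0).mp (hTI hi0)).2.2
    have h1 := key T (d i0 / 2) hTI hTk.le (by positivity) (by linarith)
      (fun i hi => by
        have := hmax i hi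
        linarith) (fun i hi hi2 => by
        have := hout i hi hi2
        linarith) (by linarith)
    refine ⟨T, hTk.le, hfin T hTI, ?_⟩
    have h2 : (d i0 / 2) ^ k * ∏ i ∈ T, (d i / (d i0 / 2)) = ∏ i ∈ T, d i := by
      rw [Finset.prod_div_distrib, Finset.prod_const, hTk]
      field_simp
    have h3 : κ * ∏ i ∈ T, d i ≤ d m := by
      rw [← h2, ← mul_assoc]
      exact h1
    rw [hd] at h3
    rw [hTk, Nat.sub_self, pow_zero, mul_one]
    exact h3

theorem NCK.star (h : NCK F K χ k κ) (hk : 1 ≤ k) (hκ : 0 < κ) (hκ1 : κ ≤ 1) (δ : ℝ) (hδ : 0 < δ)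
    (hδκ : δ ≤ κ) (y : N) (hyK : y ∈ K) (hy : y ∈ χ.source) (hyκ : ‖χ y‖ < κ) (m : ℕ) (hm : 1 ≤ m)
    (hmy : F^[m] y ∈ χ.source) :
    ∃ T : Finset ℕ, T.card ≤ k ∧ (∀ i ∈ T, 0 < i ∧ i < m ∧ F^[i] y ∈ χ.source ∧
      ‖χ (F^[i] y) - χ y‖ < δ) ∧
      κ * (δ / 2) ^ k * ∏ i ∈ T, ‖χ (F^[i] y) - χ y‖ ≤ ‖χ (F^[m] y) - χ y‖ := by
  obtain ⟨T, h1, h2, h3⟩ := h.star' hk hκ δ hδ hδκ y hyK hy hyκ m hm hmy
  refine ⟨T, h1, h2, le_trans ?_ h3⟩
  apply mul_le_mul_of_nonneg_right _ (Finset.prod_nonneg fun i _ => norm_nonneg _)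
  apply mul_le_mul_of_nonneg_left _ hκ.le
  exact pow_le_pow_of_le_one (by positivity) (by linarith) (by omega)


theorem law (h : NCK F K χ k κ) (hFK : MapsTo F K K) (hk : 1 ≤ k) (hκ : 0 < κ) (hκ1 : κ ≤ 1) (δ : ℝ) (hδ : 0 < δ)
    (hδκ : δ ≤ κ) (t : ℕ → ℝ) (htp : ∀ s, 0 < t s) (ht0 : ∀ s, t s ≤ δ / 8)
    (hmon : ∀ s, 1 ≤ s → ∀ j < k, t s ≤ t (s / (j + 2)) / 2)
    (hts : ∀ s, 1 ≤ s → t s ≤ κ * (δ / 2) ^ k * ∏ j ∈ Finset.range k, (t (s / (j + 2)) / 2)) :
    ∀ (s : ℕ) (y : N) (m : ℕ), y ∈ K → 1 ≤ m → y ∈ χ.source → F^[m] y ∈ χ.source →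
      ‖χ y‖ < κ / 2 + t s → ‖χ (F^[m] y)‖ < κ / 2 + t s →
      cnt F (BalAt χ y (3 * δ / 4 - t s)) (F y) m ≤ s → t s ≤ ‖χ (F^[m] y) - χ y‖ := by
  classical
  intro s
  induction s using Nat.strong_induction_on with
  | _ s ih =>
    intro y m hyK hm hy hmy hyn hmyn hcnt
    by_contra hcon
    push Not at hcon
    have hts0 := htp s
    have hts8 := ht0 s
    by_cases hs0 : s = 0
    · -- the return itself is a visit
      have h1 : 1 ≤ cnt F (BalAt χ y (3 * δ / 4 - t s)) (F y) m := by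
        refine cnt_pos F _ _ m (m - 1) (by omega) ?_
        rw [← Function.iterate_succ_apply]
        rw [show (m - 1).succ = m by omega]
        exact ⟨hmy, by linarith⟩
      omega
    have hs1 : 1 ≤ s := by omega
    obtain ⟨T, hTk, hT, hprod⟩ := h.star hk hκ hκ1 δ hδ hδκ y hyK hy (by linarith) m hm hmy
    have key : ∀ T' ⊆ T, T'.Nonempty → ∃ i ∈ T', t (s / (T'.card + 1)) / 2 ≤ ‖χ (F^[i] y) - χ y‖ := by
      intro T' hT' hne
      by_contra hall
      push Not at hall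
      have hcard1 : 1 ≤ T'.card := Finset.card_pos.mpr hne
      have hcardk : T'.card ≤ k := (Finset.card_le_card hT').trans hTk
      obtain ⟨s', hs'⟩ : ∃ s', s' = s / (T'.card + 1) := ⟨_, rfl⟩
      have hmon' : t s ≤ t s' / 2 := by
        have := hmon s hs1 (T'.card - 1) (by omega)
        rwa [show T'.card - 1 + 2 = T'.card + 1 by omega, ← hs'] at this
      have hs's : s' < s := by
        rw [hs']
        exact Nat.div_lt_self (by omega) (by omega)
      have hts' := htp s'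
      have hts8' := ht0 s'
      rw [← hs'] at hall
      obtain ⟨a, b, ha, hb, hab, hbm, hc⟩ := gap F (BalAt χ y (3 * δ / 4 - t s)) y T'.card T' m s rfl
        (fun i hi => ⟨(hT i (hT' hi)).1, (hT i (hT' hi)).2.1⟩) hm hcnt
      have hc' : cnt F (BalAt χ y (3 * δ / 4 - t s)) (F^[a + 1] y) (b - a) ≤ s' := by
        rw [hs', Nat.le_div_iff_mul_le (by omega)]
        exact hc
      have hda : F^[a] y ∈ χ.source ∧ ‖χ (F^[a] y) - χ y‖ < t s' / 2 := by
        rcases ha with rfl | ha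
        · refine ⟨hy, ?_⟩
          simp only [Function.iterate_zero, id_eq, sub_self, norm_zero]
          positivity
        · exact ⟨(hT a (hT' ha)).2.2.1, hall a ha⟩
      have hdb : F^[b] y ∈ χ.source ∧ ‖χ (F^[b] y) - χ y‖ < t s' / 2 := by
        rcases hb with rfl | hb
        · exact ⟨hmy, by linarith⟩
        · exact ⟨(hT b (hT' hb)).2.2.1, hall b hb⟩
      have hiter : F^[b - a] (F^[a] y) = F^[b] y := by
        rw [← Function.iterate_add_apply]
        congr 2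
        omega
      have hFa : F (F^[a] y) = F^[a + 1] y := (Function.iterate_succ_apply' F a y).symm
      have h1 := ih s' hs's (F^[a] y) (b - a) (hFK.iterate a hyK) (by omega) hda.1 (by rw [hiter]; exact hdb.1)
        (by
          have := nrm (χ (F^[a] y)) (χ y)
          linarith [hda.2])
        (by
          rw [hiter]
          have := nrm (χ (F^[b] y)) (χ y)
          linarith [hdb.2])
        (by
          rw [hFa]
          refine le_trans (cnt_mono F ?_ _ _) hc'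
          intro u hu
          refine ⟨hu.1, ?_⟩
          have := tri (χ u) (χ (F^[a] y)) (χ y)
          have := hu.2
          linarith [hda.2])
      rw [hiter] at h1
      have h2 := tri (χ (F^[b] y)) (χ y) (χ (F^[a] y))
      rw [norm_sub_rev (χ y) (χ (F^[a] y))] at h2
      linarith [hda.2, hdb.2]
    have h3 := prod_ge (fun i => ‖χ (F^[i] y) - χ y‖) (fun j => t (s / (j + 1)) / 2)
      (fun j => by have := htp (s / (j + 1)); positivity) T.card T rfl key
    have h4 : ∏ j ∈ Finset.range k, (t (s / (j + 2)) / 2) ≤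
        ∏ j ∈ Finset.range T.card, (t (s / (j + 1 + 1)) / 2) := by
      rw [← Finset.prod_sdiff (Finset.range_subset_range.mpr hTk)]
      have h5 : ∏ j ∈ Finset.range k \ Finset.range T.card, (t (s / (j + 2)) / 2) ≤ 1 := by
        apply Finset.prod_le_one
        · intro j _
          have := htp (s / (j + 2))
          positivity
        · intro j _
          have := ht0 (s / (j + 2))
          linarith
      have h6 : 0 ≤ ∏ j ∈ Finset.range T.card, (t (s / (j + 2)) / 2) :=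
        Finset.prod_nonneg fun j _ => by
          have := htp (s / (j + 2))
          positivity
      calc _ ≤ 1 * ∏ j ∈ Finset.range T.card, (t (s / (j + 2)) / 2) :=
            mul_le_mul_of_nonneg_right h5 h6
        _ = _ := by rw [one_mul]
    have h7 := hts s hs1
    have h8 : κ * (δ / 2) ^ k * ∏ j ∈ Finset.range k, (t (s / (j + 2)) / 2) ≤
        κ * (δ / 2) ^ k * ∏ i ∈ T, ‖χ (F^[i] y) - χ y‖ :=
      mul_le_mul_of_nonneg_left (h4.trans h3) (by positivity)
    linarith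

/-- explicit form of the law -/
theorem law_exp (h : NCK F K χ k κ) (hFK : MapsTo F K K) (hk : 2 ≤ k) (hκ : 0 < κ) (hκ1 : κ ≤ 1) (p : ℝ) (hp : Adm k p) :
    ∃ C : ℝ, 0 < C ∧ ∀ δ : ℝ, 0 < δ → δ ≤ κ → ∀ (s : ℕ) (y : N) (m : ℕ), y ∈ K → 1 ≤ s → 1 ≤ m →
      y ∈ χ.source → F^[m] y ∈ χ.source → ‖χ y‖ < κ / 2 → ‖χ (F^[m] y)‖ < κ / 2 →
      cnt F (BalAt χ y δ) (F y) m ≤ s →
      Real.exp (-(C * (1 + Real.log (1 / δ)) * (s : ℝ) ^ p)) ≤ ‖χ (F^[m] y) - χ y‖ := by
  have hkR : (2 : ℝ) ≤ k := by exact_mod_cast hk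
  have hl2 : 0 ≤ Real.log 2 := Real.log_nonneg (by norm_num)
  have hl8 : 0 ≤ Real.log 8 := Real.log_nonneg (by norm_num)
  have hlκ : 0 ≤ Real.log (1 / κ) := Real.log_nonneg (by rw [le_div_iff₀ hκ]; linarith)
  obtain ⟨C₁, hC₁⟩ : ∃ C₁ : ℝ, C₁ = Real.log (1 / κ) + 2 * k * Real.log 2 + k + Real.log 8 := ⟨_, rfl⟩
  have hC₁0 : 0 ≤ C₁ := by rw [hC₁]; positivity
  obtain ⟨g, C₂, hC₂, hg0, hg1, hg2, hg3⟩ := exists_g k hk p hp C₁ hC₁0
  refine ⟨C₂, hC₂, ?_⟩
  intro δ hδ hδκ s y m hyK hs hm hy hmy hyn hmyn hcnt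
  have hδ1 : δ ≤ 1 := hδκ.trans hκ1
  have hlδ : 0 ≤ Real.log (1 / δ) := Real.log_nonneg (by rw [le_div_iff₀ hδ]; linarith)
  obtain ⟨Λ, hΛ⟩ : ∃ Λ : ℝ, Λ = 1 + Real.log (1 / δ) := ⟨_, rfl⟩
  have hΛ1 : 1 ≤ Λ := by rw [hΛ]; linarith
  have hg0' : ∀ s, 0 ≤ g s := fun s => hC₁0.trans (hg1 s)
  obtain ⟨t, ht⟩ : ∃ t : ℕ → ℝ, t = fun s => Real.exp (-(Λ * g s)) := ⟨_, rfl⟩
  have htp : ∀ s, 0 < t s := fun s => by rw [ht]; exact Real.exp_pos _
  have ht8 : ∀ s, t s ≤ δ / 8 := by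
    intro s
    rw [ht]
    have h1 : δ / 8 = Real.exp (-(Real.log (1 / δ) + Real.log 8)) := by
      rw [neg_add, Real.exp_add, Real.exp_neg, Real.exp_neg, Real.exp_log (by positivity),
        Real.exp_log (by norm_num)]
      field_simp
    rw [h1]
    apply Real.exp_le_exp.mpr
    have h2 := hg1 s
    have h3 : Λ * C₁ ≤ Λ * g s := mul_le_mul_of_nonneg_left h2 (by linarith)
    have h4 : Real.log (1 / δ) + Real.log 8 ≤ Λ * C₁ := by
      rw [hΛ]
      have h5 : 1 ≤ C₁ := by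
        rw [hC₁]
        have : 0 ≤ 2 * (k : ℝ) * Real.log 2 := by positivity
        linarith
      have h6 : Real.log 8 ≤ C₁ := by
        rw [hC₁]
        have : 0 ≤ 2 * (k : ℝ) * Real.log 2 := by positivity
        linarith
      nlinarith
    linarith
  have hprod : ∀ s, 1 ≤ s → t s ≤ κ * (δ / 2) ^ k * ∏ j ∈ Finset.range k, (t (s / (j + 2)) / 2) := by
    intro s hs
    have h1 : κ * (δ / 2) ^ k * ∏ j ∈ Finset.range k, (t (s / (j + 2)) / 2) =
        Real.exp (-(Real.log (1 / κ) + k * (Real.log (1 / δ) + Real.log 2) + k * Real.log 2 +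
          Λ * ∑ j ∈ Finset.range k, g (s / (j + 2)))) := by
      have e1 : κ = Real.exp (-Real.log (1 / κ)) := by
        rw [Real.exp_neg, Real.exp_log (by positivity)]
        field_simp
      have e2 : (δ / 2) ^ k = Real.exp (-(k * (Real.log (1 / δ) + Real.log 2))) := by
        have : δ / 2 = Real.exp (-(Real.log (1 / δ) + Real.log 2)) := by
          rw [neg_add, Real.exp_add, Real.exp_neg, Real.exp_neg, Real.exp_log (by positivity),
            Real.exp_log (by norm_num)]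
          field_simp
        rw [this, ← Real.exp_nat_mul]
        ring_nf
      have e3 : ∏ j ∈ Finset.range k, (t (s / (j + 2)) / 2) =
          Real.exp (-(k * Real.log 2 + Λ * ∑ j ∈ Finset.range k, g (s / (j + 2)))) := by
        have e4 : ∀ j, t (s / (j + 2)) / 2 = Real.exp (-(Λ * g (s / (j + 2))) - Real.log 2) := by
          intro j
          rw [Real.exp_sub, Real.exp_log (by norm_num), ht]
        simp only [e4]
        rw [← Real.exp_sum, Finset.sum_sub_distrib, Finset.sum_neg_distrib, ← Finset.mul_sum,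
          Finset.sum_const, Finset.card_range, nsmul_eq_mul]
        congr 1
        ring
      rw [e3, e2]
      conv_lhs => rw [e1]
      rw [← Real.exp_add, ← Real.exp_add]
      congr 1
      ring
    rw [h1, ht]
    apply Real.exp_le_exp.mpr
    apply neg_le_neg
    have h2 := mul_le_mul_of_nonneg_left (hg3 s hs) (by linarith : (0 : ℝ) ≤ Λ)
    have h3 : Real.log (1 / κ) + k * (Real.log (1 / δ) + Real.log 2) + k * Real.log 2 ≤ Λ * C₁ := by
      rw [hΛ]
      have h4 : (k : ℝ) ≤ C₁ := by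
        rw [hC₁]
        have : 0 ≤ 2 * (k : ℝ) * Real.log 2 := by positivity
        linarith
      have h5 : (k : ℝ) * Real.log (1 / δ) ≤ C₁ * Real.log (1 / δ) :=
        mul_le_mul_of_nonneg_right h4 hlδ
      have h6 : Real.log (1 / κ) + 2 * k * Real.log 2 ≤ C₁ := by
        rw [hC₁]
        linarith
      nlinarith
    nlinarith
  have hmon : ∀ s, 1 ≤ s → ∀ j < k, t s ≤ t (s / (j + 2)) / 2 := by
    intro s hs j hj
    refine (hprod s hs).trans ?_
    rw [← Finset.mul_prod_erase (Finset.range k) _ (Finset.mem_range.mpr hj)]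
    have h1 : ∏ i ∈ (Finset.range k).erase j, (t (s / (i + 2)) / 2) ≤ 1 := by
      apply Finset.prod_le_one
      · intro i _
        have := htp (s / (i + 2))
        positivity
      · intro i _
        have := ht8 (s / (i + 2))
        linarith
    have h1' : 0 ≤ ∏ i ∈ (Finset.range k).erase j, (t (s / (i + 2)) / 2) :=
      Finset.prod_nonneg fun i _ => by
        have := htp (s / (i + 2))
        positivity
    have h2 : κ * (δ / 2) ^ k ≤ 1 := by
      have : (δ / 2) ^ k ≤ 1 := pow_le_one₀ (by positivity) (by linarith)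
      nlinarith [show (0 : ℝ) < (δ / 2) ^ k by positivity]
    have h3 : 0 < t (s / (j + 2)) / 2 := by have := htp (s / (j + 2)); positivity
    calc κ * (δ / 2) ^ k * (t (s / (j + 2)) / 2 * ∏ i ∈ (Finset.range k).erase j, (t (s / (i + 2)) / 2))
        ≤ 1 * (t (s / (j + 2)) / 2 * 1) := by
          apply mul_le_mul h2 _ (by positivity) (by norm_num)
          exact mul_le_mul_of_nonneg_left h1 h3.le
      _ = _ := by ring
  have hts := htp s
  have hfin := law h hFK (by omega) hκ hκ1 δ hδ hδκ t htp ht8 hmon hprod s y m hyK hm hy hmy (by linarith)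
    (by linarith) (by
      refine le_trans (cnt_mono F ?_ _ _) hcnt
      intro u hu
      refine ⟨hu.1, ?_⟩
      have := hu.2
      linarith)
  refine le_trans ?_ hfin
  rw [ht]
  apply Real.exp_le_exp.mpr
  apply neg_le_neg
  have h9 := mul_le_mul_of_nonneg_left (hg2 s hs) (by linarith : (0 : ℝ) ≤ Λ)
  rw [← hΛ]
  calc Λ * g s ≤ Λ * (C₂ * (s : ℝ) ^ p) := h9
    _ = C₂ * Λ * (s : ℝ) ^ p := by ring


end

end Pool.Agent.U882.EC
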