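import Pool.Agent.U882.EC.Defs
import Pool.Agent.U882.EC.Rel
import Pool.Agent.U882.EC.ClK

/-!
# A point which cannot be closed inside `K`
-/

set_option autoImplicit false

open scoped Manifold ContDiff Topology
open Filter Set Metric

universe u

namespace Pool.Agent.U882.EC

open Pool.Agent.H718R2.G Pool.Agent.W564.SC Pool.Agent.U882.FW

section

variable {n : ℕ} {N : Type u} [TopologicalSpace N]

/-- the balls of a chart are neighbourhoods of the centre, and form a basis -/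
theorem exists_ball_subset {z : N} {χ : OpenPartialHomeomorph N (V n)} (hz : z ∈ χ.source)
    (h0 : χ z = 0) (hb : closedBall (0 : V n) 1 ⊆ χ.target) {O : Set N} (hO : O ∈ 𝓝 z) :
    ∃ ε : ℝ, 0 < ε ∧ Bal χ ε ⊆ O := by
  have hc : ContinuousAt χ.symm (0 : V n) := by
    apply χ.symm.continuousAt
    exact hb (mem_closedBall_self zero_le_one)
  have hz' : χ.symm 0 = z := by rw [← h0, χ.left_inv hz]
  have h1 : ∀ᶠ v in 𝓝 (0 : V n), χ.symm v ∈ O := by
    apply hc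
    rw [hz']
    exact hO
  obtain ⟨ε, hε, h2⟩ := Metric.eventually_nhds_iff_ball.mp h1
  refine ⟨ε, hε, ?_⟩
  rintro y ⟨hy1, hy2⟩
  have h3 := h2 (χ y) (by rw [mem_ball_zero_iff]; exact hy2)
  rwa [χ.left_inv hy1] at h3

theorem bal_mem_nhds {z : N} {χ : OpenPartialHomeomorph N (V n)} (hz : z ∈ χ.source)
    (h0 : χ z = 0) {ε : ℝ} (hε : 0 < ε) : Bal χ ε ∈ 𝓝 z := by
  have h1 : ∀ᶠ y in 𝓝 z, χ y ∈ ball (0 : V n) ε := by
    apply χ.continuousAt hz
    rw [h0]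
    exact ball_mem_nhds _ hε
  filter_upwards [h1, χ.open_source.mem_nhds hz] with y hy1 hy2
  exact ⟨hy2, by rwa [mem_ball_zero_iff] at hy1⟩

theorem isOpen_balAt (χ : OpenPartialHomeomorph N (V n)) (x : N) (R : ℝ) : IsOpen (BalAt χ x R) := by
  have h1 : BalAt χ x R = χ.source ∩ χ ⁻¹' (ball (χ x) R) := by
    ext y
    simp only [BalAt, mem_ofPred_eq, mem_inter_iff, mem_preimage, mem_ball_iff_norm]
  rw [h1]
  exact χ.isOpen_inter_preimage isOpen_ball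

theorem isOpen_bal (χ : OpenPartialHomeomorph N (V n)) (R : ℝ) : IsOpen (Bal χ R) := by
  have h1 : Bal χ R = χ.source ∩ χ ⁻¹' (ball 0 R) := by
    ext y
    simp only [Bal, mem_ofPred_eq, mem_inter_iff, mem_preimage, mem_ball_zero_iff]
  rw [h1]
  exact χ.isOpen_inter_preimage isOpen_ball

/-- short orbit segments do not return, near a point which is not periodic -/
theorem exists_no_short {F : N → N} (hF : Continuous F) [T2Space N] {z : N} (M : ℕ)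
    (hz : ∀ m, 1 ≤ m → m < M → F^[m] z ≠ z) :
    ∃ O ∈ 𝓝 z, ∀ y ∈ O, ∀ m, 1 ≤ m → m < M → F^[m] y ∉ O := by
  induction M with
  | zero => exact ⟨univ, univ_mem, fun y _ m _ h2 => by omega⟩
  | succ M ih =>
    obtain ⟨O, hO, h⟩ := ih fun m h1 h2 => hz m h1 (by omega)
    by_cases hM : 1 ≤ M
    · obtain ⟨A, B, hA, hB, hzA, hzB, hAB⟩ := t2_separation (hz M hM (by omega))
      refine ⟨O ∩ (B ∩ F^[M] ⁻¹' A), inter_mem hO (inter_mem (hB.mem_nhds hzB) ?_), ?_⟩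
      · exact (hA.preimage (hF.iterate M)).mem_nhds hzA
      · rintro y ⟨hy1, hy2, hy3⟩ m h1 h2 ⟨h3, h4, -⟩
        rcases Nat.lt_succ_iff_lt_or_eq.mp h2 with h5 | rfl
        · exact h y hy1 m h1 h5 h3
        · exact Set.disjoint_left.mp hAB hy3 h4
    · refine ⟨O, hO, fun y hy m h1 h2 => ?_⟩
      omega

variable [T2Space N] [CompactSpace N] [ChartedSpace (V n) N] [IsManifold (𝓡 n) ∞ N] {r : ℕ∞}

/-- no closing inside `K` -/
theorem nck_of_not_closableIn (hr : 2 ≤ r) (F : DiffM n N r) (K : Set N) (z : N) (hzK : z ∈ K)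
    (χ : OpenPartialHomeomorph N (V n)) (hχ : GoodChart n N χ z)
    (hz : ¬ ClosableIn n N r F K z) :
    ∃ (k : ℕ) (κ : ℝ), 2 ≤ k ∧ (k : ℕ∞) ≤ r ∧ 0 < κ ∧ κ ≤ 1 / 8 ∧ NCK F K χ k κ := by
  unfold ClosableIn at hz
  push Not at hz
  obtain ⟨U, hU, hFU, O, hO, M, hno⟩ := hz
  obtain ⟨k, hk2, hk, κ₁, hκ₁, h⟩ := clK n N r hr F χ z hχ U hU hFU
  have hnp : ∀ m, 1 ≤ m → m < M → F^[m] z ≠ z := by
    intro m h1 h2 h3
    refine hno F hFU z hzK (mem_of_mem_nhds hO) (m * M) (Nat.mul_pos h1 (by omega)) ?_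
      (fun i _ => rfl) ?_
    · exact Nat.le_mul_of_pos_left M h1
    · rw [Function.iterate_mul]
      have : ∀ j, (F^[m])^[j] z = z := by
        intro j
        induction j with
        | zero => rfl
        | succ j ih => rw [Function.iterate_succ_apply', ih, h3]
      exact this M
  have hFc : Continuous F := F.toHomeomorph.continuous
  obtain ⟨O', hO', hO'2⟩ := exists_no_short hFc M hnp
  obtain ⟨ε, hε, hεO⟩ := exists_ball_subset hχ.src hχ.zero hχ.ball (inter_mem hO hO')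
  refine ⟨k, min (min κ₁ (1 / 8)) (ε / (2 * 2 ^ k)), hk2, hk, by positivity,
    (min_le_left _ _).trans (min_le_right _ _), ?_⟩
  obtain ⟨κ, hκ⟩ : ∃ κ, κ = min (min κ₁ (1 / 8)) (ε / (2 * 2 ^ k)) := ⟨_, rfl⟩
  rw [← hκ]
  have k1 : κ ≤ κ₁ := by rw [hκ]; exact (min_le_left _ _).trans (min_le_left _ _)
  have k2 : κ ≤ 1 / 8 := by rw [hκ]; exact (min_le_left _ _).trans (min_le_right _ _)
  have k3 : κ ≤ ε / (2 * 2 ^ k) := by rw [hκ]; exact min_le_right _ _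
  have hκ0 : 0 < κ := by rw [hκ]; positivity
  have h2k : (1 : ℝ) ≤ 2 ^ k := one_le_pow₀ (by norm_num)
  have k4 : κ * 2 ^ k ≤ ε / 2 := by
    calc κ * 2 ^ k ≤ ε / (2 * 2 ^ k) * 2 ^ k := mul_le_mul_of_nonneg_right k3 (by positivity)
      _ = ε / 2 := by field_simp
  have k5 : κ ≤ ε / 2 := by
    calc κ = κ * 1 := (mul_one κ).symm
      _ ≤ κ * 2 ^ k := mul_le_mul_of_nonneg_left h2k hκ0.le
      _ ≤ ε / 2 := k4
  intro y ρ m T hyK hy hyκ hρ hρκ hm hTk hT hmy hd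
  by_contra hcon
  push Not at hcon
  have hρk : 0 < ρ ^ k := pow_pos hρ k
  obtain ⟨G, hG, hseg, hGy⟩ := h y ρ m T hy (hyκ.trans_le k1) hρ (hρκ.trans_le k1) hm hTk hT hmy
    (hd.trans_le (mul_le_mul_of_nonneg_right k1 hρk.le)) (fun i h1 h2 h3 h4 => hcon i h1 h2 h3 h4)
  have hyO := hεO ⟨hy, hyκ.trans_le (k5.trans (by linarith))⟩
  -- the return is close
  have hhalf : ∀ i ∈ T, 1 / 2 ≤ ρ / ‖χ (F^[i] y) - χ y‖ := by
    intro i hi
    obtain ⟨-, h1, h2⟩ := hT i hi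
    rw [div_le_div_iff₀ (by norm_num) h1]
    linarith
  have hprod : (1 / 2 : ℝ) ^ k ≤ ∏ i ∈ T, ρ / ‖χ (F^[i] y) - χ y‖ := half_pow_le_prod hTk hhalf
  have hw : ‖χ (F^[m] y) - χ y‖ * (1 / 2 : ℝ) ^ k < κ := by
    refine (mul_le_mul_of_nonneg_left hprod (norm_nonneg _)).trans_lt (hd.trans_le ?_)
    calc κ * ρ ^ k ≤ κ * 1 := by
          apply mul_le_mul_of_nonneg_left _ hκ0.le
          exact pow_le_one₀ hρ.le (by linarith)
      _ = κ := mul_one κ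
  have hw2 : ‖χ (F^[m] y) - χ y‖ < ε / 2 := by
    have h1 : ‖χ (F^[m] y) - χ y‖ = ‖χ (F^[m] y) - χ y‖ * (1 / 2 : ℝ) ^ k * 2 ^ k := by
      rw [mul_assoc, ← mul_pow]
      norm_num
    rw [h1]
    calc _ < κ * 2 ^ k := mul_lt_mul_of_pos_right hw (by positivity)
      _ ≤ ε / 2 := k4
  have hmO : F^[m] y ∈ O' := by
    apply (hεO _).2
    refine ⟨hmy, ?_⟩
    have := norm_sub_norm_le (χ (F^[m] y)) (χ y)
    linarith
  by_cases hmM : M ≤ m
  · exact hno G hG y hyK hyO.1 m hm hmM hseg hGy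
  · exact hO'2 y hyO.2 m hm (by omega) hmO

/-- If `z` cannot be closed then it cannot be closed inside any set. -/
theorem nck_of_not_closable (hr : 2 ≤ r) (F : DiffM n N r) (z : N)
    (χ : OpenPartialHomeomorph N (V n)) (hχ : GoodChart n N χ z) (hz : ¬ Closable n N r F z) :
    ∃ (k : ℕ) (κ : ℝ), 2 ≤ k ∧ (k : ℕ∞) ≤ r ∧ 0 < κ ∧ κ ≤ 1 / 8 ∧ ∀ K : Set N, NCK F K χ k κ := by
  obtain ⟨k, κ, hk, hkr, hκ, hκ1, h⟩ := ncz_of_not_closable hr F z χ hχ hz
  exact ⟨k, κ, hk, hkr, hκ, hκ1, fun K y ρ m T _ => h y ρ m T⟩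

end

end Pool.Agent.U882.EC
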