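import Pool.Agent.U882.EC.Supp
import Pool.Agent.U882.FW.Stab

/-!
# `Ω`-stable diffeomorphisms: invariant measures and minimal sets
-/

set_option autoImplicit false

open scoped Manifold ContDiff Topology
open Filter Set Metric MeasureTheory

universe u

namespace Pool.Agent.U882.EC

open Pool.Agent.H718R2.G Pool.Agent.W564.SC Pool.Agent.U882.FW Pool.Agent.TH80.OMS

section

variable {n : ℕ} {N : Type u} [TopologicalSpace N]

/-- The orbits in `K` visit some neighbourhood of the centre of `χ` with density zero, uniformly. -/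
def SparseVisits (F : N → N) (K : Set N) (χ : OpenPartialHomeomorph N (V n)) : Prop :=
  ∃ ρ : ℝ, 0 < ρ ∧ ∀ ε : ℝ, 0 < ε → ∃ E : ℕ, ∀ x ∈ K, ∀ m : ℕ,
    (visits F (Bal χ ρ) x m : ℝ) ≤ E + ε * m

variable [T2Space N] [CompactSpace N] [ChartedSpace (V n) N] [IsManifold (𝓡 n) ∞ N] {r : ℕ∞} {p : ℝ}

theorem nck_of_stable (hr : 2 ≤ r) {F : DiffM n N r} (hF : OmegaStable n N r F) {z : N}
    (hz : z ∉ closure (Per F)) {χ : OpenPartialHomeomorph N (V n)} (hχ : GoodChart n N χ z) :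
    ∃ (k : ℕ) (κ : ℝ), 2 ≤ k ∧ (k : ℕ∞) ≤ r ∧ 0 < κ ∧ κ ≤ 1 / 8 ∧ ∀ K : Set N, NCK F K χ k κ := by
  obtain ⟨k, κ, hk, hkr, hκ, hκ1, h⟩ := ncz_of_not_lclosable hr F hχ (fun hc =>
    hz (Pool.Agent.R773.FC.per_of_lclosable (le_trans (by norm_num) hr) hF hc))
  exact ⟨k, κ, hk, hkr, hκ, hκ1, fun K y ρ m T _ => h y ρ m T⟩

theorem closure_per_mapsTo (F : DiffM n N r) : MapsTo F (closure (Per F)) (closure (Per F)) := by
  apply MapsTo.closure _ F.toHomeomorph.continuous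
  rintro x ⟨m, hm, hx⟩
  refine ⟨m, hm, ?_⟩
  show F^[m] (F x) = F x
  rw [← Function.iterate_succ_apply, Function.iterate_succ_apply', hx]

theorem stable_sparse (hr : 2 ≤ r) (hp : AdmUpTo r p) {F : DiffM n N r} (hF : OmegaStable n N r F)
    {z : N} (hz : z ∉ closure (Per F)) {χ : OpenPartialHomeomorph N (V n)}
    (hχ : GoodChart n N χ z) (K : Set N) (hK : IsClosed K) (hFK : MapsTo F K K)
    (hS : LogNull p K χ) : SparseVisits F K χ := by
  obtain ⟨k, κ, hk, hkr, hκ, hκ1, h⟩ := nck_of_stable hr hF hz hχ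
  obtain ⟨ρ, hρ, hden⟩ := density_zero (h K) hK hFK hk hκ hκ1 hχ.ball (hp k hkr) hS
  refine ⟨ρ, hρ, fun ε hε => ?_⟩
  obtain ⟨E, hE⟩ := hden ε hε
  refine ⟨E, fun x hx m => ?_⟩
  have h1 := hE x hx m
  have h2 : visits F (Bal χ ρ) x m = cnt F (Bal χ ρ ∩ K) (F x) m := by
    have h3 : visits F (Bal χ ρ) x m = cnt F (Bal χ ρ) (F x) m := cnt_visits F _ x m
    rw [h3]
    classical
    unfold cnt
    congr 1
    ext i
    simp only [Finset.mem_filter]
    constructor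
    · rintro ⟨hi1, hi2⟩
      exact ⟨hi1, hi2, iter_mem hFK (hFK hx) i⟩
    · rintro ⟨hi1, hi2, -⟩
      exact ⟨hi1, hi2⟩
  rw [h2]
  linarith [mul_comm ε (m : ℝ)]

theorem stable_minimal (hr : 2 ≤ r) (hp : AdmUpTo r p) {F : DiffM n N r}
    (hF : OmegaStable n N r F) (K : Set N) (hK : IsClosed K) (hFK : MapsTo F K K)
    (hD : DenseOrbits F K) (z : N) (hzK : z ∈ K) (χ : OpenPartialHomeomorph N (V n))
    (hχ : GoodChart n N χ z) (hS : LogNull p K χ) : K ⊆ closure (Per F) := by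
  have hz : z ∈ closure (Per F) := by
    by_contra hz
    obtain ⟨k, κ, hk, hkr, hκ, hκ1, h⟩ := nck_of_stable hr hF hz hχ
    exact false_of_minimal F.toHomeomorph.continuous (h K) hK hFK hk hκ hκ1 hχ.ball (hp k hkr) hS
      hD hχ.src hχ.zero hzK
  refine (hD z hzK).trans (closure_minimal ?_ isClosed_closure)
  rintro u ⟨i, rfl⟩
  exact iter_mem (closure_per_mapsTo F) hz i

variable [MeasurableSpace N] [BorelSpace N]

theorem stable_law (hr : 2 ≤ r) {F : DiffM n N r} (hF : OmegaStable n N r F) {z : N}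
    (hz : z ∉ closure (Per F)) {χ : OpenPartialHomeomorph N (V n)} (hχ : GoodChart n N χ z) :
    ∃ (k : ℕ) (ρ : ℝ), 2 ≤ k ∧ (k : ℕ∞) ≤ r ∧ 0 < ρ ∧ MeasureLaw F univ χ k ρ := by
  obtain ⟨k, κ, hk, hkr, hκ, hκ1, h⟩ := nck_of_stable hr hF hz hχ
  exact ⟨k, κ / 8, hk, hkr, by positivity,
    measureLaw (h univ) isClosed_univ (mapsTo_univ _ _) hk hκ hκ1⟩

theorem stable_support (hr : 2 ≤ r) (hp : AdmUpTo r p) {F : DiffM n N r}
    (hF : OmegaStable n N r F) (μ : Measure N) (hμ : IsProbabilityMeasure μ)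
    (hFμ : MeasurePreserving F μ μ) (S : Set N) (hμS : μ Sᶜ = 0) (z : N) (hz : z ∈ μ.support)
    (χ : OpenPartialHomeomorph N (V n)) (hχ : GoodChart n N χ z) (hS : LogNull p S χ) :
    z ∈ closure (Per F) := by
  by_contra hcon
  obtain ⟨k, κ, hk, hkr, hκ, hκ1, h⟩ := nck_of_stable hr hF hcon hχ
  have h1 := measureLaw (h univ) isClosed_univ (mapsTo_univ _ _) hk hκ hκ1
  obtain ⟨ρ', hρ', h2⟩ := null_of_logNull (hp k hkr) (by positivity) h1 S hS
  exact not_null_of_mem_support μ hz hχ hρ' (h2 μ hμ hFμ (by simp) hμS)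

end

end Pool.Agent.U882.EC
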