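import Pool.Agent.U882.EC.Min
import Pool.Agent.U882.FW.Rec

/-!
# Supports of invariant measures; periodic orbits near minimal sets; the generic case
-/

set_option autoImplicit false

open scoped Manifold ContDiff Topology
open Filter Set Metric MeasureTheory

universe u

namespace Pool.Agent.U882.EC

open Pool.Agent.H718R2.G Pool.Agent.W564.SC Pool.Agent.U882.FW

section

variable {N : Type*} [TopologicalSpace N] [MeasurableSpace N] [BorelSpace N] {F : N → N}

theorem mapsTo_support (hF : Continuous F) (μ : Measure N) (hFμ : MeasurePreserving F μ μ) :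
    MapsTo F μ.support μ.support := by
  intro x hx
  rw [Measure.mem_support_iff_forall] at hx ⊢
  intro U hU
  obtain ⟨O, hOU, hO, hxO⟩ := mem_nhds_iff.mp hU
  have h1 := hx (F ⁻¹' O) ((hO.preimage hF).mem_nhds hxO)
  rw [hFμ.measure_preimage hO.measurableSet.nullMeasurableSet] at h1
  exact h1.trans_le (measure_mono hOU)

end

theorem measure_compl_support (n : ℕ) {N : Type*} [TopologicalSpace N] [CompactSpace N]
    [ChartedSpace (V n) N] [MeasurableSpace N] (μ : Measure N) : μ μ.supportᶜ = 0 := by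
  have := ChartedSpace.secondCountable_of_sigmaCompact (V n) N
  exact Measure.measure_compl_support

/-- `K` is approximated by periodic orbits of maps arbitrarily near `F`, which are segments of orbits
of `F` in `K`: they meet any given finitely many open sets which meet `K`, and the averages of any
finitely many functions with uniformly convergent Birkhoff averages on `K` are near the limits. -/
def PeriodicApprox (n : ℕ) (N : Type*) [TopologicalSpace N] [ChartedSpace (V n) N] (r : ℕ∞)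
    (F : DiffM n N r) (K : Set N) : Prop :=
  ∀ U : Set (DiffM n N r), IsOpen[strongTop n N r] U → F ∈ U →
    ∀ 𝒲 : Finset (Set N), (∀ W ∈ 𝒲, IsOpen W ∧ (W ∩ K).Nonempty) →
    ∀ (Φ : Finset (N → ℝ)) (c : (N → ℝ) → ℝ), (∀ φ ∈ Φ,
      TendstoUniformlyOn (fun m x => birkhoffAverage ℝ F φ m x) (fun _ => c φ) atTop K) →
    ∀ ε : ℝ, 0 < ε → ∃ G ∈ U, ∃ y ∈ K, ∃ m : ℕ, 1 ≤ m ∧ (∀ i < m, G^[i] y = F^[i] y) ∧
      G^[m] y = y ∧ (∀ W ∈ 𝒲, ∃ i < m, G^[i] y ∈ W) ∧
      ∀ φ ∈ Φ, |birkhoffAverage ℝ G φ m y - c φ| < ε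

section

variable {n : ℕ} {N : Type u} [TopologicalSpace N] [T2Space N] [CompactSpace N]
  [ChartedSpace (V n) N] [IsManifold (𝓡 n) ∞ N] {r : ℕ∞} {p : ℝ}

theorem periodicApprox_of_closableIn (F : DiffM n N r) (K : Set N) (hK : IsClosed K)
    (hD : DenseOrbits F K) (z : N) (h : ClosableIn n N r F K z) : PeriodicApprox n N r F K := by
  classical
  intro U hU hFU 𝒲 h𝒲 Φ c hΦ ε hε
  have hFc : Continuous F := F.toHomeomorph.continuous
  -- times for the open sets
  have h1 : ∃ L : ℕ, ∀ W ∈ 𝒲, ∀ y ∈ K, ∃ i < L, F^[i] y ∈ W := by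
    have h2 : ∀ W ∈ 𝒲, ∃ L : ℕ, ∀ y ∈ K, ∃ i < L, F^[i] y ∈ W := fun W hW =>
      exists_uniform_time hFc hK.isCompact hD (h𝒲 W hW).1 (h𝒲 W hW).2
    choose! L hL using h2
    refine ⟨𝒲.sup L, fun W hW y hy => ?_⟩
    obtain ⟨i, hi, hiW⟩ := hL W hW y hy
    exact ⟨i, hi.trans_le (Finset.le_sup hW), hiW⟩
  obtain ⟨L, hL⟩ := h1
  -- times for the averages
  have h3 : ∃ M : ℕ, ∀ φ ∈ Φ, ∀ m ≥ M, ∀ y ∈ K, |birkhoffAverage ℝ F φ m y - c φ| < ε := by
    have h4 : ∀ φ ∈ Φ, ∃ M : ℕ, ∀ m ≥ M, ∀ y ∈ K, |birkhoffAverage ℝ F φ m y - c φ| < ε := by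
      intro φ hφ
      have h5 := Metric.tendstoUniformlyOn_iff.mp (hΦ φ hφ) ε hε
      obtain ⟨M, hM⟩ := eventually_atTop.mp h5
      refine ⟨M, fun m hm y hy => ?_⟩
      have h6 := hM m hm y hy
      rwa [dist_comm, Real.dist_eq] at h6
    choose! M hM using h4
    refine ⟨Φ.sup M, fun φ hφ m hm y hy => ?_⟩
    exact hM φ hφ m ((Finset.le_sup hφ).trans hm) y hy
  obtain ⟨M, hM⟩ := h3
  obtain ⟨G, hG, y, hyK, -, m, hm, hLm, hseg, hGy⟩ := h U hU hFU univ univ_mem (max L M)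
  refine ⟨G, hG, y, hyK, m, hm, hseg, hGy, fun W hW => ?_, fun φ hφ => ?_⟩
  · obtain ⟨i, hi, hiW⟩ := hL W hW y hyK
    have hi' : i < m := hi.trans_le ((le_max_left _ _).trans hLm)
    exact ⟨i, hi', by rw [hseg i hi']; exact hiW⟩
  · have e : birkhoffAverage ℝ G φ m y = birkhoffAverage ℝ F φ m y := by
      unfold birkhoffAverage birkhoffSum
      congr 1
      apply Finset.sum_congr rfl
      intro i hi
      rw [hseg i (Finset.mem_range.mp hi)]
    rw [e]
    exact hM φ hφ m ((le_max_right _ _).trans hLm) y hyK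

variable [MeasurableSpace N] [BorelSpace N]

/-- a point of the support is not in a null ball -/
theorem not_null_of_mem_support (μ : Measure N) {z : N} (hz : z ∈ μ.support)
    {χ : OpenPartialHomeomorph N (V n)} (hχ : GoodChart n N χ z) {ρ : ℝ} (hρ : 0 < ρ)
    (h : μ (Bal χ ρ) = 0) : False := by
  rw [Measure.mem_support_iff_forall] at hz
  exact (hz _ (bal_mem_nhds hχ.src hχ.zero hρ)).ne' h

/-- The `C^r` closing lemma, inside the supports of the invariant measures which are carried by null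
sets. -/
theorem closableIn_support (hr : 2 ≤ r) (hp : AdmUpTo r p) (F : DiffM n N r) (μ : Measure N)
    (hμ : IsProbabilityMeasure μ) (hFμ : MeasurePreserving F μ μ) (S : Set N) (hμS : μ Sᶜ = 0)
    (z : N) (hz : z ∈ μ.support) (χ : OpenPartialHomeomorph N (V n)) (hχ : GoodChart n N χ z)
    (hS : LogNull p S χ) : ClosableIn n N r F μ.support z := by
  by_contra hcon
  obtain ⟨k, κ, hk, hkr, hκ, hκ1, h⟩ := nck_of_not_closableIn hr F _ z hz χ hχ hcon
  have h1 := measureLaw h Measure.isClosed_support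
    (mapsTo_support F.toHomeomorph.continuous μ hFμ) hk hκ hκ1
  obtain ⟨ρ', hρ', h2⟩ := null_of_logNull (hp k hkr) (by positivity) h1 S hS
  exact not_null_of_mem_support μ hz hχ hρ' (h2 μ hμ hFμ (measure_compl_support n μ) hμS)

theorem closable_support (hr : 2 ≤ r) (hp : AdmUpTo r p) (F : DiffM n N r) (μ : Measure N)
    (hμ : IsProbabilityMeasure μ) (hFμ : MeasurePreserving F μ μ) (S : Set N) (hμS : μ Sᶜ = 0)
    (z : N) (hz : z ∈ μ.support) (χ : OpenPartialHomeomorph N (V n)) (hχ : GoodChart n N χ z)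
    (hS : LogNull p S χ) : Closable n N r F z := by
  by_contra hcon
  obtain ⟨k, κ, hk, hkr, hκ, hκ1, h⟩ := nck_of_not_closable hr F z χ hχ hcon
  have h1 := measureLaw (h univ) isClosed_univ (mapsTo_univ _ _) hk hκ hκ1
  obtain ⟨ρ', hρ', h2⟩ := null_of_logNull (hp k hkr) (by positivity) h1 S hS
  exact not_null_of_mem_support μ hz hχ hρ' (h2 μ hμ hFμ (by simp) hμS)

/-- the alternative for all invariant measures of `F|K` -/
theorem closableIn_or_law (hr : 2 ≤ r) (F : DiffM n N r) (K : Set N) (hK : IsClosed K)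
    (hFK : MapsTo F K K) (z : N) (hzK : z ∈ K) (χ : OpenPartialHomeomorph N (V n))
    (hχ : GoodChart n N χ z) :
    ClosableIn n N r F K z ∨ ∃ (k : ℕ) (ρ : ℝ), 2 ≤ k ∧ (k : ℕ∞) ≤ r ∧ 0 < ρ ∧
      MeasureLaw F K χ k ρ := by
  by_cases hz : ClosableIn n N r F K z
  · exact Or.inl hz
  · right
    obtain ⟨k, κ, hk, hkr, hκ, hκ1, h⟩ := nck_of_not_closableIn hr F K z hzK χ hχ hz
    exact ⟨k, κ / 8, hk, hkr, by positivity, measureLaw h hK hFK hk hκ hκ1⟩

/-- the generic case -/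
theorem generic_measures (hr : 2 ≤ r) :
    ∃ R : ℕ → Set (DiffM n N r), (∀ j, IsOpen[strongTop n N r] (R j)) ∧
      (∀ j, @Dense _ (strongTop n N r) (R j)) ∧ ∀ F : DiffM n N r, (∀ j, F ∈ R j) →
        ∀ z, z ∉ closure (Pool.Agent.TH80.OMS.Per F) → ∀ χ : OpenPartialHomeomorph N (V n),
        GoodChart n N χ z →
        (∃ (k : ℕ) (ρ : ℝ), 2 ≤ k ∧ (k : ℕ∞) ≤ r ∧ 0 < ρ ∧ MeasureLaw F univ χ k ρ) ∧
        ∀ (μ : Measure N) (S : Set N) (p : ℝ), IsProbabilityMeasure μ → MeasurePreserving F μ μ →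
          μ Sᶜ = 0 → AdmUpTo r p → LogNull p S χ → z ∉ μ.support := by
  obtain ⟨R, h1, h2, h3⟩ := Pool.Agent.Y368.GG.generic_closable (n := n) (N := N) r
    (le_trans (by norm_num) hr)
  refine ⟨R, h1, h2, fun F hF z hz χ hχ => ⟨?_, ?_⟩⟩
  · obtain ⟨k, κ, hk, hkr, hκ, hκ1, h⟩ := nck_of_not_closable hr F z χ hχ (fun hc => hz (h3 F hF z hc))
    exact ⟨k, κ / 8, hk, hkr, by positivity,
      measureLaw (h univ) isClosed_univ (mapsTo_univ _ _) hk hκ hκ1⟩
  · intro μ S p hμ hFμ hμS hp hS hzμ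
    exact hz (h3 F hF z (closable_support hr hp F μ hμ hFμ S hμS z hzμ χ hχ hS))

end

end Pool.Agent.U882.EC
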